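import Pool.Agent.H21.TNE.Fb

/-!
# K_TIEN, the engine: one call

`Pc S r k`: a picture over `r + 1` samples of a line of `S`; the real time and the slopes depend on
the times only; the context is a function of the line and of the reference times. `Pc.okns`: the
hypotheses of BODY, from numbers, fullness, and an error of the height which lies in bodies in which
the target is full.
-/

set_option autoImplicit false
set_option linter.unusedSectionVars false
set_option linter.unusedVariables false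

namespace Pool.TNE

open Finset Real Matrix
open Pool.Agent.H49.Ent Pool.Agent.H32.Dense Pool.STK Pool.KS6 Pool.SLO Pool.QT64 Pool.POT
open Pool.FAD Pool.TQ64
open Pool.BFL (Pb)

variable {c : ℕ}

/-- A picture with `r` reference samples. -/
structure Pc (S : LB c) (r k : ℕ) where
  κ : Type
  ctx : (Fin (r + 1) → S.Ω) → κ
  rf : κ → S.β × (Fin r → S.τ)
  hrf : ∀ w, rf (ctx w) = (S.b (w 0), fun j => S.th (w j.succ))
  tau : (Fin (r + 1) → S.τ) → ℤ
  E : (Fin (r + 1) → S.τ) → Fin k → Fin c → ℝ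
  y : S.ν → κ → Fin k → ℤ
  be : S.ν → κ → Fin c → ℝ
  a0 : S.τ → κ → Fin c → ℝ
  b0 : S.ν → κ → Fin c → ℝ

variable {S : LB c} {r k : ℕ}

/-- The times. -/
def Pc.ts (P : Pc S r k) (t : S.τ) (x : P.κ) : Fin (r + 1) → S.τ := Fin.cons t (P.rf x).2

/-- The formula. -/
noncomputable def Pc.gf (P : Pc S r k) (t : S.τ) (x : P.κ) (v : S.ν) (x' : P.κ) (i : Fin c) : ℝ :=
  (P.tau (P.ts t x) : ℝ) * P.be v x' i - ∑ u, P.E (P.ts t x) u i * P.y v x' u + P.a0 t x i +
    P.b0 v x' i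

/-- The height of the picture. -/
noncomputable def Pc.hg (P : Pc S r k) (w : Fin (r + 1) → S.Ω) : Fin c → ℤ :=
  S.n (w 0) + fun i => ⌊P.gf (S.th (w 0)) (P.ctx w) (S.v (w 0)) (P.ctx w) i⌋

theorem Pc.ts_ctx (P : Pc S r k) (w : Fin (r + 1) → S.Ω) :
    P.ts (S.th (w 0)) (P.ctx w) = fun j => S.th (w j) := by
  unfold Pc.ts
  rw [P.hrf]
  funext j
  refine Fin.cases rfl (fun i => ?_) j
  rw [Fin.cons_succ]

open Classical in
/-- A retraction to the support. -/
noncomputable def ret {W : Type} (q : W → ℝ) (w : W) : W :=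
  if 0 < q w then w else if h : ∃ w, 0 < q w then h.choose else w

theorem ret_pos {W : Type} {q : W → ℝ} (h : ∃ w, 0 < q w) (w : W) : 0 < q (ret q w) := by
  unfold ret
  split_ifs with h1
  · exact h1
  · exact h.choose_spec

theorem ret_eq {W : Type} {q : W → ℝ} {w : W} (h : 0 < q w) : ret q w = w := by
  unfold ret
  rw [if_pos h]

theorem ex_pos {W : Type} [Fintype W] {q : W → ℝ} (hq : IsLaw q) : ∃ w, 0 < q w := by
  by_contra h
  push Not at h
  have h1 : ∑ w, q w = 0 := Finset.sum_eq_zero fun w _ => le_antisymm (h w) (hq.nonneg w)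
  rw [hq.sum_one] at h1
  exact one_ne_zero h1

/-- The picture as a picture of `QUAD`. -/
noncomputable def Pc.H (P : Pc S r k) : QH c k where
  Ω := Fin (r + 1) → S.Ω
  iΩ := inferInstance
  B := P.κ
  Vt := S.ν × P.κ
  Tt := S.τ × P.κ
  p := tup S.p S.L r
  b := fun w => P.ctx (ret (tup S.p S.L r) w)
  nu := fun w => S.n (ret (tup S.p S.L r) w 0)
  v := fun w => (S.v (ret (tup S.p S.L r) w 0), P.ctx (ret (tup S.p S.L r) w))
  th := fun w => (S.th (ret (tup S.p S.L r) w 0), P.ctx (ret (tup S.p S.L r) w))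
  tau := fun t => P.tau (P.ts t.1 t.2)
  E := fun t => P.E (P.ts t.1 t.2)
  y := fun v => P.y v.1 v.2
  be := fun v => P.be v.1 v.2
  g := fun t v i => ⌊P.gf t.1 t.2 v.1 v.2 i⌋
  a0 := fun t => P.a0 t.1 t.2
  b0 := fun v => P.b0 v.1 v.2

/-- The numbers and the fullness. -/
structure Pc.Ok (P : Pc S r k) (X : ℕ) (C d : ℝ) : Prop where
  ctx_m : Det (tup S.p S.L r)
    (fun w => (S.v (w 0), (S.b (w 0), fun j : Fin r => S.th (w j.succ)))) P.ctx
  tau_r : ∀ w, 0 < tup S.p S.L r w →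
    0 ≤ P.tau (fun j => S.th (w j)) ∧ P.tau (fun j => S.th (w j)) < 2 ^ X
  y_r : ∀ w, 0 < tup S.p S.L r w → ∀ j,
    0 ≤ P.y (S.v (w 0)) (P.ctx w) j ∧ P.y (S.v (w 0)) (P.ctx w) j < 2 ^ X
  E_b : ∀ w, 0 < tup S.p S.L r w → ∀ u i, |P.E (fun j => S.th (w j)) u i| ≤ C
  be_b : ∀ w, 0 < tup S.p S.L r w → ∀ i, |P.be (S.v (w 0)) (P.ctx w) i| ≤ C
  hgt_b : ∀ w, 0 < tup S.p S.L r w → ∀ i, |(P.hg w i : ℝ)| ≤ C * 2 ^ X
  y_f : k * X * Real.log 2 - d ≤
    CH (tup S.p S.L r) (fun w => P.y (S.v (w 0)) (P.ctx w)) P.ctx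
  t_f : X * Real.log 2 - d ≤ CH (tup S.p S.L r) (fun w => P.tau fun j => S.th (w j)) P.ctx

variable {P : Pc S r k} {X m : ℕ} {C d d1 D η R : ℝ}

/-- Replacing by the retraction. -/
theorem CH_ret {W T U : Type} [Fintype W] {q : W → ℝ} (hq : ∀ w, 0 ≤ q w) (f : W → T) (g : W → U) :
    CH q (fun w => f (ret q w)) (fun w => g (ret q w)) = CH q f g := by
  refine CH_congr hq ?_ ?_ ?_ ?_
  · intro w w' x x' e
    simp only [ret_eq x, ret_eq x'] at e
    exact (Prod.ext_iff.1 e).1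
  · intro w w' x x' e
    simp only [ret_eq x, ret_eq x']
    exact (Prod.ext_iff.1 e).1
  · intro w w' x x' e
    simp only [ret_eq x, ret_eq x'] at e
    exact e
  · intro w w' x x' e
    simp only [ret_eq x, ret_eq x']
    exact e

/-- The information of the time and of the line. -/
theorem Pc.call_h0 (hS : S.Ok d) (hP : P.Ok X C d1) :
    CH (tup S.p S.L r) (fun w => (S.th (w 0), P.ctx w)) P.ctx -
      CH (tup S.p S.L r) (fun w => (S.th (w 0), P.ctx w))
        (fun w => (S.n (w 0), ((S.v (w 0), P.ctx w), P.ctx w))) ≤ d := by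
  have hp := hS.law.nonneg
  have q0 := hS.q0 r
  obtain ⟨q, hq⟩ : ∃ q, q = tup S.p S.L r := ⟨_, rfl⟩
  obtain ⟨Y, hY⟩ : ∃ Y : (Fin (r + 1) → S.Ω) → Fin r → S.τ, Y = fun w j => S.th (w j.succ) :=
    ⟨_, rfl⟩
  have e1 : CH (tup S.p S.L r) (fun w => (S.th (w 0), P.ctx w)) P.ctx =
      CH (tup S.p S.L r) (fun w => S.th (w 0)) P.ctx := by
    refine CH_congr q0 ?_ ?_ (fun _ _ _ _ e => e) (fun _ _ _ _ e => e)
    · intro w w' _ _ e
      simp only [Prod.mk.injEq] at e
      exact e.1.1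
    · intro w w' _ _ e
      simp only [Prod.mk.injEq] at e ⊢
      exact ⟨e.1, e.2⟩
  have e2 : CH (tup S.p S.L r) (fun w => S.th (w 0))
      (fun w => (S.n (w 0), ((S.v (w 0), P.ctx w), P.ctx w))) ≤
      CH (tup S.p S.L r) (fun w => (S.th (w 0), P.ctx w))
        (fun w => (S.n (w 0), ((S.v (w 0), P.ctx w), P.ctx w))) := by
    refine CH_mono_left q0 fun w w' _ _ e => ?_
    simp only [Prod.mk.injEq] at e
    exact e.1.1
  have e3 : CH (tup S.p S.L r) (fun w => S.th (w 0)) (fun w => ((S.L (w 0), Y w), P.ctx w)) ≤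
      CH (tup S.p S.L r) (fun w => S.th (w 0))
        (fun w => (S.n (w 0), ((S.v (w 0), P.ctx w), P.ctx w))) := by
    refine CH_mono_cond q0 fun w w' x x' e => ?_
    simp only [Prod.mk.injEq] at e ⊢
    have k1 := (hS.same x 0).2.2.2.2
    have k2 := (hS.same x' 0).2.2.2.2
    exact ⟨hS.Ln _ _ k1 k2 e.1.1, ⟨hS.Lv _ _ k1 k2 e.1.1, e.2⟩, e.2⟩
  -- informations
  have i1 : MI (tup S.p S.L r) (fun w => S.th (w 0)) (fun w => (S.L (w 0), Y w)) P.ctx =
      MI (tup S.p S.L r) (fun w => S.th (w 0)) (fun w => (S.L (w 0), Y w))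
        (fun w => (P.ctx w, S.b (w 0))) := by
    have hb : ∀ w w', P.ctx w = P.ctx w' → S.b (w 0) = S.b (w' 0) := by
      intro w w' e
      have h1 := P.hrf w
      rw [e, P.hrf w'] at h1
      exact (Prod.ext_iff.1 h1).1.symm
    refine MI_congr q0 ?_ ?_ ?_ ?_ ?_ ?_
    · intro w w' _ _ e
      simp only [Prod.mk.injEq] at e ⊢
      exact ⟨e.1, e.2, hb w w' e.2⟩
    · intro w w' _ _ e
      simp only [Prod.mk.injEq] at e ⊢
      exact ⟨e.1, e.2.1⟩
    · intro w w' _ _ e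
      simp only [Prod.mk.injEq] at e ⊢
      exact ⟨e.1, e.2, hb w w' e.2⟩
    · intro w w' _ _ e
      simp only [Prod.mk.injEq] at e ⊢
      exact ⟨e.1, e.2.1⟩
    · intro w w' _ _ e
      exact Prod.ext e (hb w w' e)
    · intro w w' _ _ e
      exact (Prod.ext_iff.1 e).1
  have i2 : MI (tup S.p S.L r) (fun w => S.th (w 0)) (fun w => (S.L (w 0), Y w))
        (fun w => (P.ctx w, S.b (w 0))) ≤
      MI (tup S.p S.L r) (fun w => S.th (w 0)) (fun w => (S.L (w 0), Y w))
        (fun w => S.b (w 0)) := by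
    refine MI_cond_right q0 ?_
    intro w w' x x' e
    simp only [Prod.mk.injEq] at e
    have k1 := (hS.same x 0).2.2.2.2
    have k2 := (hS.same x' 0).2.2.2.2
    refine hP.ctx_m w w' x x' ?_
    have e3 : Y w = Y w' := e.1.2
    rw [hY] at e3
    simp only [Prod.mk.injEq]
    exact ⟨hS.Lv _ _ k1 k2 e.1.1, e.2, e3⟩
  have i3 := MI_chain q0 (fun w => S.th (w 0)) (fun w => S.L (w 0)) Y (fun w => S.b (w 0))
  have i4 : MI (tup S.p S.L r) (fun w => S.th (w 0)) (fun w => S.L (w 0))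
      (fun w => S.b (w 0)) ≤ d := by
    rw [(im_tup hp S.L r 0).MI S.th S.L S.b]
    exact hS.h0
  have i5 : MI (tup S.p S.L r) (fun w => S.th (w 0)) Y (fun w => (S.L (w 0), S.b (w 0))) = 0 := by
    have k := hS.ci r
    rw [← k, hY]
    refine MI_congr q0 ?_ ?_ ?_ ?_ ?_ ?_
    · intro w w' _ _ e
      simp only [Prod.mk.injEq] at e ⊢
      exact ⟨e.1, e.2.1⟩
    · intro w w' x x' e
      simp only [Prod.mk.injEq] at e ⊢
      exact ⟨e.1, e.2, hS.Lb _ _ (hS.same x 0).2.2.2.2 (hS.same x' 0).2.2.2.2 e.2⟩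
    · intro w w' _ _ e
      simp only [Prod.mk.injEq] at e ⊢
      exact ⟨e.1, e.2.1⟩
    · intro w w' x x' e
      simp only [Prod.mk.injEq] at e ⊢
      exact ⟨e.1, e.2, hS.Lb _ _ (hS.same x 0).2.2.2.2 (hS.same x' 0).2.2.2.2 e.2⟩
    · intro w w' _ _ e
      exact (Prod.ext_iff.1 e).1
    · intro w w' x x' e
      exact Prod.ext e (hS.Lb _ _ (hS.same x 0).2.2.2.2 (hS.same x' 0).2.2.2.2 e)
  have i6 : MI (tup S.p S.L r) (fun w => S.th (w 0)) (fun w => (S.L (w 0), Y w)) P.ctx ≤ d := by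
    rw [i1]
    linarith
  unfold MI at i6
  rw [e1]
  linarith

/-- The constant. -/
noncomputable def Kp (c m : ℕ) (R C : ℝ) : ℝ :=
  m * (Ctr c 1 + |Csb c|) + (c * Real.log (2 * (2 * R + 2) + 1) + |Cc c ((c : ℝ) + 1)| +
    Real.log 2) + c * Real.log (4 * C + 1)

/-- **The heights of the picture are almost independent of the line.** -/
theorem Pc.call_h2 (hS : S.Ok d) (hP : P.Ok X C d1) (hC : 1 ≤ C)
    (A : Fin m → (Fin (r + 1) → S.τ) → Matrix (Fin c) (Fin c) ℝ)
    (hdet : ∀ i t, (A i t).det ≠ 0) (hinv : ∀ i t a b, |(A i t)⁻¹ a b| ≤ 2 ^ X)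
    (hD : ∀ i, S.FB X r (A i) ≤ D) (hR : 0 ≤ R) (F : (Fin (r + 1) → S.Ω) → Prop)
    (hF : Pb (tup S.p S.L r) F ≤ η) (hη1 : η ≤ 1)
    (herr : ∀ w, 0 < tup S.p S.L r w → ¬ F w → ∀ i,
      |((sbf X m fun e => A e fun j => S.th (w j))⁻¹ *ᵥ
        (xv X (P.hg w) - xv X (S.h (w 0)))) i| ≤ R) :
    CH (tup S.p S.L r) P.hg (fun w => ((S.th (w 0), P.ctx w), P.ctx w)) -
      CH (tup S.p S.L r) P.hg
        (fun w => ((S.v (w 0), P.ctx w), ((S.th (w 0), P.ctx w), P.ctx w))) ≤
      (r + 1) * d + m * D + c * (η * (X * Real.log 2)) + Kp c m R C := by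
  have hp := hS.law.nonneg
  have ql := hS.ql r
  have q0 := hS.q0 r
  have hXR : (1 : ℝ) ≤ 2 ^ X := one_le_pow₀ (by norm_num)
  obtain ⟨Z, hZ⟩ : ∃ Z : (Fin (r + 1) → S.Ω) → (S.τ × P.κ) × P.κ,
      Z = fun w => ((S.th (w 0), P.ctx w), P.ctx w) := ⟨_, rfl⟩
  rw [← hZ]
  have hdat : ∀ w w', Z w = Z w' → S.b (w 0) = S.b (w' 0) ∧
      (fun j => S.th (w j)) = (fun j => S.th (w' j)) ∧ P.ctx w = P.ctx w' := by
    intro w w' e
    rw [hZ] at e
    simp only [Prod.mk.injEq] at e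
    have h1 := P.ts_ctx w
    have h2 := P.hrf w
    rw [e.1.1, e.1.2, P.ts_ctx w'] at h1
    rw [e.1.2, P.hrf w'] at h2
    exact ⟨(Prod.ext_iff.1 h2).1.symm, h1.symm, e.1.2⟩
  have hfc : Det (tup S.p S.L r) (S.fl r) P.ctx := by
    intro w w' x x' e
    simp only [LB.fl, Prod.mk.injEq] at e
    refine hP.ctx_m w w' x x' ?_
    simp only [Prod.mk.injEq]
    refine ⟨e.1, e.2.1, ?_⟩
    funext j
    exact congrFun e.2.2 j.succ
  have hfZ : Det (tup S.p S.L r) (S.fl r) Z := by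
    intro w w' x x' e
    have h1 := hfc w w' x x' e
    simp only [LB.fl, Prod.mk.injEq] at e
    have h2 : S.th (w 0) = S.th (w' 0) := congrFun e.2.2 0
    rw [hZ]
    simp only [h1, h2]
  -- the deficits
  obtain ⟨B, hB⟩ : ∃ B : Fin m → (Fin (r + 1) → S.Ω) → Matrix (Fin c) (Fin c) ℝ,
      B = fun e w => A e fun j => S.th (w j) := ⟨_, rfl⟩
  have dB : ∀ e, Det (tup S.p S.L r) Z (B e) := by
    intro e w w' _ _ h
    rw [hB]
    show A e (fun j => S.th (w j)) = A e fun j => S.th (w' j)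
    rw [(hdat w w' h).2.1]
  have dBf : ∀ e, Det (tup S.p S.L r) (S.fl r) (B e) := by
    intro e w w' _ _ h
    simp only [LB.fl, Prod.mk.injEq] at h
    rw [hB]
    show A e (fun j => S.th (w j)) = A e fun j => S.th (w' j)
    rw [h.2.2]
  have f1 : ∀ e, DF (tup S.p S.L r) (fun _ => Tx c X) (B e) (fun w => xv X (S.h (w 0))) Z ≤
      D + Ctr c 1 := by
    intro e
    have g1 := DF_less q0 X (A := B e) (n := fun w => S.h (w 0)) hfZ
    have g2 := DF_shift ql X (A := B e) (n := fun w => S.h (w 0)) (n' := fun w => S.n (w 0))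
      (Z := S.fl r) (dBf e) (by
        intro w w' x x' h
        simp only [LB.fl, Prod.mk.injEq] at h
        have h2 : S.th (w 0) = S.th (w' 0) := congrFun h.2.2 0
        have h3 := hS.hh _ _ (hS.same x 0).2.2.2.2 (hS.same x' 0).2.2.2.2
          (show (S.v (w 0), (S.b (w 0), S.th (w 0))) = (S.v (w' 0), (S.b (w' 0), S.th (w' 0))) by
            rw [h.1, h.2.1, h2])
        have h4 : S.h (w 0) - S.n (w 0) = S.h (w' 0) - S.n (w' 0) := h3
        show S.n (w 0) - S.h (w 0) = S.n (w' 0) - S.h (w' 0)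
        rw [← neg_sub (S.h (w 0)), ← neg_sub (S.h (w' 0)), h4])
    have g3 : DF (tup S.p S.L r) (fun _ => Tx c X) (B e) (fun w => xv X (S.n (w 0))) (S.fl r) ≤
        D := by
      have := hD e
      unfold LB.FB at this
      rw [hB]
      exact this
    linarith
  have f2 := DF_sbf ql (X := X) (n := fun w => S.h (w 0)) (Z := Z) m B dB
    (fun e w => by rw [hB]; exact hdet e _) (fun e w a b => by rw [hB]; exact hinv e _ a b)
  have f3 : ∑ e, DF (tup S.p S.L r) (fun _ => Tx c X) (B e) (fun w => xv X (S.h (w 0))) Z ≤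
      m * (D + Ctr c 1) := by
    refine (Finset.sum_le_card_nsmul _ _ (D + Ctr c 1) fun e _ => f1 e).trans (le_of_eq ?_)
    rw [Finset.card_univ, Fintype.card_fin, nsmul_eq_mul]
  -- the absorption
  have m1 := absorb ql (X := X) (A := fun w => sbf X m fun e => B e w)
    (n := fun w => S.h (w 0)) (n' := P.hg) (Z := Z)
    (by
      intro w w' x x' e
      show sbf X m (fun e => B e w) = sbf X m fun e => B e w'
      have : (fun e => B e w) = fun e => B e w' := by
        funext e'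
        exact dB e' w w' x x' e
      rw [this])
    (fun w => sbf_det X m _) (fun w i j => sbf_inv X m _ i j) (R := R)
    (B := C * 2 ^ X) hR (by positivity) F (fun w hw i => hP.hgt_b w hw i) (by
      intro w hw hFw i
      have := herr w hw hFw i
      rw [hB]
      exact this)
  have hlog : Real.log (2 * (2 * (C * 2 ^ X)) + 1) ≤
      X * Real.log 2 + Real.log (4 * C + 1) := by
    have e1 : Real.log (2 ^ X * (4 * C + 1)) = X * Real.log 2 + Real.log (4 * C + 1) := by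
      rw [Real.log_mul (by positivity) (by positivity), Real.log_pow]
    rw [← e1]
    refine Real.log_le_log (by positivity) ?_
    nlinarith
  have hP0 : 0 ≤ Pb (tup S.p S.L r) F := by
    unfold Pb
    refine Finset.sum_nonneg fun w _ => ?_
    split_ifs
    · exact q0 w
    · exact le_rfl
  have hη0 : 0 ≤ η := hP0.trans hF
  have hlog0 : 0 ≤ Real.log (2 * (2 * (C * 2 ^ X)) + 1) := by
    refine Real.log_nonneg ?_
    nlinarith
  have hlC : 0 ≤ Real.log (4 * C + 1) := Real.log_nonneg (by linarith)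
  have m2 : (c : ℝ) * (Pb (tup S.p S.L r) F * Real.log (2 * (2 * (C * 2 ^ X)) + 1)) ≤
      c * (η * (X * Real.log 2)) + c * Real.log (4 * C + 1) := by
    have h1 : Pb (tup S.p S.L r) F * Real.log (2 * (2 * (C * 2 ^ X)) + 1) ≤
        η * (X * Real.log 2 + Real.log (4 * C + 1)) :=
      mul_le_mul hF hlog hlog0 hη0
    have h3 : η * Real.log (4 * C + 1) ≤ 1 * Real.log (4 * C + 1) :=
      mul_le_mul_of_nonneg_right hη1 hlC
    have h2 := mul_le_mul_of_nonneg_left (h1.trans (show η * (X * Real.log 2 +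
      Real.log (4 * C + 1)) ≤ η * (X * Real.log 2) + Real.log (4 * C + 1) by linarith))
      (Nat.cast_nonneg (α := ℝ) c)
    linarith
  -- less context
  have m3 : CH (tup S.p S.L r) (fun w => S.h (w 0)) Z ≤
      CH S.p S.h (fun ω => (S.th ω, S.b ω)) := by
    have k := (im_tup hp S.L r 0).CH S.h (fun ω => (S.th ω, S.b ω))
    rw [← k]
    refine CH_mono_cond q0 fun w w' _ _ e => ?_
    obtain ⟨e0, e1, -⟩ := hdat w w' e
    exact Prod.ext (congrFun e1 0) e0
  -- with the line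
  have m4 : CH S.p S.h (fun ω => (S.v ω, (S.th ω, S.b ω))) - r * d ≤
      CH (tup S.p S.L r) P.hg (fun w => ((S.v (w 0), P.ctx w), Z w)) := by
    have k := (im_tup hp S.L r 0).CH S.h (fun ω => (S.v ω, (S.th ω, S.b ω)))
    rw [← k]
    have k1 := hS.oth r
    have k2 : MI (tup S.p S.L r) (fun w => S.h (w 0)) (fun w (j : Fin r) => S.th (w j.succ))
        (fun w => ((S.v (w 0), S.th (w 0)), S.b (w 0))) ≤
        MI (tup S.p S.L r) (fun w => (S.L (w 0), S.th (w 0)))
          (fun w (j : Fin r) => S.th (w j.succ)) (fun w => S.b (w 0)) := by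
      refine MI_data q0 ?_ ?_
      · intro w w' x x' e
        simp only [Prod.mk.injEq] at e
        have p1 := (hS.same x 0).2.2.2.2
        have p2 := (hS.same x' 0).2.2.2.2
        have h1 := hS.Lv _ _ p1 p2 e.1.1
        have h2 := hS.Ln _ _ p1 p2 e.1.1
        have h3 := hS.hh _ _ p1 p2
          (show (S.v (w 0), (S.b (w 0), S.th (w 0))) = (S.v (w' 0), (S.b (w' 0), S.th (w' 0))) by
            rw [h1, e.2, e.1.2])
        have h4 : S.h (w 0) - S.n (w 0) = S.h (w' 0) - S.n (w' 0) := h3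
        show S.h (w 0) = S.h (w' 0)
        rw [h2] at h4
        exact sub_left_inj.1 h4
      · intro w w' x x' e
        simp only [Prod.mk.injEq] at e ⊢
        exact ⟨hS.Lv _ _ (hS.same x 0).2.2.2.2 (hS.same x' 0).2.2.2.2 e.1.1, e.1.2⟩
    have k2' := k2.trans k1
    unfold MI at k2'
    have k3 : CH (tup S.p S.L r) (fun w => S.h (w 0))
        (fun w => ((S.v (w 0), S.th (w 0)), S.b (w 0))) =
        CH (tup S.p S.L r) (fun w => S.h (w 0))
        (fun w => (S.v (w 0), (S.th (w 0), S.b (w 0)))) := by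
      refine le_antisymm ?_ ?_ <;>
      · refine CH_mono_cond q0 fun w w' _ _ e => ?_
        simp only [Prod.mk.injEq] at e ⊢
        tauto
    have k4 : CH (tup S.p S.L r) (fun w => S.h (w 0)) (fun w =>
        ((fun (j : Fin r) => S.th (w j.succ)), ((S.v (w 0), S.th (w 0)), S.b (w 0)))) ≤
        CH (tup S.p S.L r) P.hg (fun w => ((S.v (w 0), P.ctx w), Z w)) := by
      refine (CH_mono_left q0 (X' := P.hg) ?_).trans (CH_mono_cond q0 ?_)
      · intro w w' x x' e
        simp only [Prod.mk.injEq] at e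
        obtain ⟨e0, e1, ⟨e2, e3⟩, e4⟩ := e
        have p1 := (hS.same x 0).2.2.2.2
        have p2 := (hS.same x' 0).2.2.2.2
        have hc : P.ctx w = P.ctx w' := hP.ctx_m w w' x x' (by
          simp only [Prod.mk.injEq]
          exact ⟨e2, e4, e1⟩)
        have hn : S.n (w 0) = S.n (w' 0) := by
          have h5 := e0
          unfold Pc.hg at h5
          rw [e2, e3, hc] at h5
          exact add_right_cancel h5
        have h3 := hS.hh _ _ p1 p2
          (show (S.v (w 0), (S.b (w 0), S.th (w 0))) = (S.v (w' 0), (S.b (w' 0), S.th (w' 0))) by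
            rw [e2, e4, e3])
        have h4 : S.h (w 0) - S.n (w 0) = S.h (w' 0) - S.n (w' 0) := h3
        show S.h (w 0) = S.h (w' 0)
        rw [hn] at h4
        exact sub_left_inj.1 h4
      · intro w w' x x' e
        simp only [Prod.mk.injEq] at e
        obtain ⟨e1, ⟨e2, e3⟩, e4⟩ := e
        have hc : P.ctx w = P.ctx w' := hP.ctx_m w w' x x' (by
          simp only [Prod.mk.injEq]
          exact ⟨e2, e4, e1⟩)
        rw [hZ]
        simp only [e2, e3, hc]
    rw [k3] at k2'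
    linarith
  have m5 := hS.h2
  unfold MI at m5
  have m6 := le_abs_self (Cc c ((c : ℝ) + 1))
  have m7 : (fun w : Fin (r + 1) → S.Ω =>
      ((S.v (w 0), P.ctx w), ((S.th (w 0), P.ctx w), P.ctx w))) =
      fun w => ((S.v (w 0), P.ctx w), Z w) := by rw [hZ]
  have m8 : (m : ℝ) * (D + Ctr c 1) = m * D + m * Ctr c 1 := by ring
  have m9 : (m : ℝ) * (Ctr c 1 + |Csb c|) = m * Ctr c 1 + m * |Csb c| := by ring
  unfold Kp
  rw [m7, m9]
  linarith

/-- The price. -/
noncomputable def pr (c r m : ℕ) (R C d d1 D η : ℝ) (X : ℕ) : ℝ :=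
  d1 + (r + 1) * d + m * D + c * (η * (X * Real.log 2)) + Kp c m R C

theorem Kp_nn (c m : ℕ) {R C : ℝ} (hR : 0 ≤ R) (hC : 1 ≤ C) : 0 ≤ Kp c m R C := by
  have n1 : 0 ≤ Ctr c 1 := Ctr_nonneg c zero_le_one
  have n2 := Real.log_nonneg (show (1 : ℝ) ≤ 2 * (2 * R + 2) + 1 by linarith)
  have n3 := Real.log_nonneg (show (1 : ℝ) ≤ 4 * C + 1 by linarith)
  have n4 := abs_nonneg (Csb c)
  have n5 := abs_nonneg (Cc c ((c : ℝ) + 1))
  have n6 : 0 < Real.log 2 := Real.log_pos (by norm_num)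
  unfold Kp
  positivity

/-- **The hypotheses of BODY.** -/
theorem Pc.okns (hS : S.Ok d) (hP : P.Ok X C d1) (hC : 1 ≤ C) (hd : 0 ≤ d) (hd1 : 0 ≤ d1)
    (hD0 : 0 ≤ D)
    (A : Fin m → (Fin (r + 1) → S.τ) → Matrix (Fin c) (Fin c) ℝ)
    (hdet : ∀ i t, (A i t).det ≠ 0) (hinv : ∀ i t a b, |(A i t)⁻¹ a b| ≤ 2 ^ X)
    (hD : ∀ i, S.FB X r (A i) ≤ D) (hR : 0 ≤ R) (F : (Fin (r + 1) → S.Ω) → Prop)
    (hF : Pb (tup S.p S.L r) F ≤ η) (hη : 0 ≤ η) (hη1 : η ≤ 1)
    (herr : ∀ w, 0 < tup S.p S.L r w → ¬ F w → ∀ i,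
      |((sbf X m fun e => A e fun j => S.th (w j))⁻¹ *ᵥ
        (xv X (P.hg w) - xv X (S.h (w 0)))) i| ≤ R) :
    P.H.OkNS X C (pr c r m R C d d1 D η X) := by
  have ql := hS.ql r
  have q0 := hS.q0 r
  have hex := ex_pos ql
  have rp : ∀ w, 0 < tup S.p S.L r (ret (tup S.p S.L r) w) := ret_pos hex
  have n1 := Kp_nn c m hR hC
  have n2 : 0 ≤ c * (η * (X * Real.log 2)) := by
    have : 0 < Real.log 2 := Real.log_pos (by norm_num)
    positivity
  have n3 : 0 ≤ (m : ℝ) * D := by positivity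
  have n4 : 0 ≤ ((r : ℝ)) * d := by positivity
  refine
    { law := ql
      tau_r := ?_
      y_r := fun w => hP.y_r _ (rp w)
      E_b := ?_
      be_b := fun w => hP.be_b _ (rp w)
      hgt_b := fun w => hP.hgt_b _ (rp w)
      g_eq := ?_
      h0 := ?_
      h2 := ?_
      y_f := ?_
      t_f := ?_ }
  · intro w
    have e := P.ts_ctx (ret (tup S.p S.L r) w)
    show 0 ≤ P.tau (P.ts (S.th (ret (tup S.p S.L r) w 0)) (P.ctx (ret (tup S.p S.L r) w))) ∧
      P.tau (P.ts (S.th (ret (tup S.p S.L r) w 0)) (P.ctx (ret (tup S.p S.L r) w))) < 2 ^ X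
    rw [e]
    exact hP.tau_r _ (rp w)
  · intro w u i
    have e := P.ts_ctx (ret (tup S.p S.L r) w)
    show |P.E (P.ts (S.th (ret (tup S.p S.L r) w 0)) (P.ctx (ret (tup S.p S.L r) w))) u i| ≤ C
    rw [e]
    exact hP.E_b _ (rp w) u i
  · intro w w' i
    have key : ∀ x : ℝ, |((⌊x⌋ : ℤ) : ℝ) - x| ≤ C := by
      intro x
      have f1 := Int.floor_le x
      have f2 := Int.lt_floor_add_one x
      rw [abs_le]
      constructor <;> linarith
    exact key _
  · have h1 := P.call_h0 hS hP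
    have e1 := CH_ret q0 (fun w => (S.th (w 0), P.ctx w)) P.ctx
    have e2 := CH_ret q0 (fun w => (S.th (w 0), P.ctx w))
        (fun w => (S.n (w 0), ((S.v (w 0), P.ctx w), P.ctx w)))
    show CH (tup S.p S.L r) (fun w => (S.th (ret (tup S.p S.L r) w 0),
        P.ctx (ret (tup S.p S.L r) w))) (fun w => P.ctx (ret (tup S.p S.L r) w)) -
      CH (tup S.p S.L r) (fun w => (S.th (ret (tup S.p S.L r) w 0),
        P.ctx (ret (tup S.p S.L r) w)))
        (fun w => (S.n (ret (tup S.p S.L r) w 0), ((S.v (ret (tup S.p S.L r) w 0),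
          P.ctx (ret (tup S.p S.L r) w)), P.ctx (ret (tup S.p S.L r) w)))) ≤ _
    rw [e1, e2]
    unfold pr
    linarith
  · have h1 := P.call_h2 hS hP hC A hdet hinv hD hR F hF hη1 herr
    have e1 := CH_ret q0 P.hg (fun w => ((S.th (w 0), P.ctx w), P.ctx w))
    have e2 := CH_ret q0 P.hg
        (fun w => ((S.v (w 0), P.ctx w), ((S.th (w 0), P.ctx w), P.ctx w)))
    show CH (tup S.p S.L r) (fun w => P.hg (ret (tup S.p S.L r) w))
        (fun w => ((S.th (ret (tup S.p S.L r) w 0), P.ctx (ret (tup S.p S.L r) w)),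
          P.ctx (ret (tup S.p S.L r) w))) -
      CH (tup S.p S.L r) (fun w => P.hg (ret (tup S.p S.L r) w))
        (fun w => ((S.v (ret (tup S.p S.L r) w 0), P.ctx (ret (tup S.p S.L r) w)),
          ((S.th (ret (tup S.p S.L r) w 0), P.ctx (ret (tup S.p S.L r) w)),
          P.ctx (ret (tup S.p S.L r) w)))) ≤ _
    rw [e1, e2]
    unfold pr
    linarith
  · have h1 := hP.y_f
    have e1 := CH_ret q0 (fun w => P.y (S.v (w 0)) (P.ctx w)) P.ctx
    show (k : ℝ) * X * Real.log 2 - pr c r m R C d d1 D η X ≤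
      CH (tup S.p S.L r) (fun w => P.y (S.v (ret (tup S.p S.L r) w 0))
        (P.ctx (ret (tup S.p S.L r) w))) (fun w => P.ctx (ret (tup S.p S.L r) w))
    rw [e1]
    unfold pr
    linarith
  · have h1 := hP.t_f
    have e1 := CH_ret q0 (fun w => P.tau fun j => S.th (w j)) P.ctx
    have e2 : (fun w => P.tau (P.ts (S.th (ret (tup S.p S.L r) w 0))
        (P.ctx (ret (tup S.p S.L r) w)))) =
        fun w => P.tau fun j => S.th (ret (tup S.p S.L r) w j) := by
      funext w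
      rw [P.ts_ctx]
    show (X : ℝ) * Real.log 2 - pr c r m R C d d1 D η X ≤
      CH (tup S.p S.L r) (fun w => P.tau (P.ts (S.th (ret (tup S.p S.L r) w 0))
        (P.ctx (ret (tup S.p S.L r) w)))) (fun w => P.ctx (ret (tup S.p S.L r) w))
    rw [e2, e1]
    unfold pr
    linarith

end Pool.TNE
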