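import Pool.Agent.H64.P5.D12

/-!
# K_TIEN, the engine: fullness in bodies of several samples

`LB`: a line system with a height. `FB X N A`: the deficit of the target of the line in the body `A`
of `N + 1` samples of the line, given the whole line and all times. `FB_sub`: more samples. `sbf`: the
sum of finitely many bodies.
-/

set_option autoImplicit false
set_option linter.unusedSectionVars false
set_option linter.unusedVariables false

namespace Pool.TNE

open Finset Real Matrix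
open Pool.Agent.H49.Ent Pool.Agent.H32.Dense Pool.STK Pool.KS6 Pool.SLO Pool.QT64 Pool.POT
open Pool.FAD Pool.TQ64
open Pool.BFL (Pb)

/-- A line system. -/
structure LB (c : ℕ) where
  Ω : Type
  iΩ : Fintype Ω
  Λ : Type
  β : Type
  ν : Type
  τ : Type
  p : Ω → ℝ
  L : Ω → Λ
  b : Ω → β
  v : Ω → ν
  th : Ω → τ
  n : Ω → Fin c → ℤ
  h : Ω → Fin c → ℤ

attribute [instance] LB.iΩ

/-- The hypotheses: `h - n` is a function of the time and of the line without `n`, the time has few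
information on the line, and the height few information on the line without `n`. -/
structure LB.Ok {c : ℕ} (S : LB c) (d : ℝ) : Prop where
  law : IsLaw S.p
  Lb : Det S.p S.L S.b
  Lv : Det S.p S.L S.v
  Ln : Det S.p S.L S.n
  hL : Det S.p (fun ω => (S.n ω, (S.v ω, S.b ω))) S.L
  hh : Det S.p (fun ω => (S.v ω, (S.b ω, S.th ω))) (fun ω => S.h ω - S.n ω)
  h0 : MI S.p S.th S.L S.b ≤ d
  h2 : MI S.p S.h S.v (fun ω => (S.th ω, S.b ω)) ≤ d

variable {c : ℕ} {S : LB c} {d : ℝ}

/-- The line and all times. -/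
def LB.fl (S : LB c) (N : ℕ) (w : Fin (N + 1) → S.Ω) : S.ν × (S.β × (Fin (N + 1) → S.τ)) :=
  (S.v (w 0), (S.b (w 0), fun j => S.th (w j)))

/-- The deficit of the target in the body of `N + 1` samples. -/
noncomputable def LB.FB (S : LB c) (X N : ℕ)
    (A : (Fin (N + 1) → S.τ) → Matrix (Fin c) (Fin c) ℝ) : ℝ :=
  DF (tup S.p S.L N) (fun _ => Tx c X) (fun w => A fun j => S.th (w j))
    (fun w => xv X (S.n (w 0))) (S.fl N)

theorem LB.Ok.q0 (h : S.Ok d) (N : ℕ) : ∀ w, 0 ≤ tup S.p S.L N w :=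
  fun w => tup_nonneg h.law.nonneg S.L N w

theorem LB.Ok.ql (h : S.Ok d) (N : ℕ) : IsLaw (tup S.p S.L N) := tup_isLaw h.law S.L N

/-- On the support all samples have the same line. -/
theorem LB.Ok.same (h : S.Ok d) {N : ℕ} {w : Fin (N + 1) → S.Ω} (hw : 0 < tup S.p S.L N w)
    (j : Fin (N + 1)) : S.L (w j) = S.L (w 0) ∧ S.b (w j) = S.b (w 0) ∧ S.v (w j) = S.v (w 0) ∧
      S.n (w j) = S.n (w 0) ∧ 0 < S.p (w j) := by
  have hp := h.law.nonneg
  have h1 := (tup_pos_iff hp S.L N w).1 hw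
  have e := h1.2 j
  exact ⟨e, h.Lb _ _ (h1.1 j) (h1.1 0) e, h.Lv _ _ (h1.1 j) (h1.1 0) e,
    h.Ln _ _ (h1.1 j) (h1.1 0) e, h1.1 j⟩

/-- All times together have few information on the line. -/
theorem LB.Ok.all (h : S.Ok d) (N : ℕ) :
    MI (tup S.p S.L N) (fun w => S.L (w 0)) (fun w (j : Fin (N + 1)) => S.th (w j))
      (fun w => S.b (w 0)) ≤ (N + 1) * d := by
  have hp := h.law.nonneg
  have q0 := h.q0 N
  have q1 := h.q0 (N + 1)
  have hm : Im (tup S.p S.L (N + 1)) (tup S.p S.L N) (fun w => w ∘ Fin.succ) :=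
    im_of_marg (tup_sub hp S.L Fin.succ (Fin.succ_injective _))
  have a1 := hm.MI (fun w => S.L (w 0)) (fun w (j : Fin (N + 1)) => S.th (w j))
    (fun w => S.b (w 0))
  have a2 := tup_cost hp S.th h.Lb h.h0 (N + 1)
  rw [← a1]
  refine le_trans (le_of_eq ?_) (a2.trans (le_of_eq (by push_cast; ring)))
  refine MI_congr q1 ?_ ?_ ?_ ?_ ?_ ?_
  all_goals
    intro w w' x x' e
    have k1 := h.same x 1
    have k2 := h.same x' 1
    have k3 : S.L ((w ∘ Fin.succ) 0) = S.L (w 0) := k1.1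
    have k4 : S.L ((w' ∘ Fin.succ) 0) = S.L (w' 0) := k2.1
    have k5 : S.b ((w ∘ Fin.succ) 0) = S.b (w 0) := k1.2.1
    have k6 : S.b ((w' ∘ Fin.succ) 0) = S.b (w' 0) := k2.2.1
    simp only [k3, k4, k5, k6, Prod.mk.injEq] at e ⊢
    exact e

/-- The other times have few information on the line and the first time. -/
theorem LB.Ok.oth (h : S.Ok d) (r : ℕ) :
    MI (tup S.p S.L r) (fun w => (S.L (w 0), S.th (w 0)))
      (fun w (j : Fin r) => S.th (w j.succ)) (fun w => S.b (w 0)) ≤ r * d := by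
  have hp := h.law.nonneg
  cases r with
  | zero =>
    have q0 := h.q0 0
    rw [MI_symm q0, MI_zero q0]
    · simp
    · intro w w' _ _ _
      funext j
      exact j.elim0
  | succ r =>
    have := tup_info hp h.Lb h.h0 r
    push_cast
    exact this

/-- Given the whole line, the first time is independent of the others. -/
theorem LB.Ok.ci (h : S.Ok d) (r : ℕ) :
    MI (tup S.p S.L r) (fun w => S.th (w 0))
      (fun w (j : Fin r) => S.th (w j.succ)) (fun w => S.L (w 0)) = 0 := by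
  have hp := h.law.nonneg
  cases r with
  | zero =>
    have q0 := h.q0 0
    rw [MI_symm q0, MI_zero q0]
    intro w w' _ _ _
    funext j
    exact j.elim0
  | succ r => exact tup_ci0 hp S.L r S.th (fun w (j : Fin (r + 1)) => S.th (w j))

/-- The target and all times, given the line and some times. -/
theorem LB.Ok.mi_n (h : S.Ok d) {M : ℕ} {ζ : Type} (g : (Fin (M + 1) → S.τ) → ζ) :
    MI (tup S.p S.L M) (fun w => S.n (w 0)) (fun w (j : Fin (M + 1)) => S.th (w j))
      (fun w => (S.v (w 0), (g (fun j => S.th (w j)), S.b (w 0)))) ≤ (M + 1) * d := by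
  have q0 := h.q0 M
  have a1 : MI (tup S.p S.L M) (fun w => S.n (w 0)) (fun w (j : Fin (M + 1)) => S.th (w j))
      (fun w => (S.v (w 0), (g (fun j => S.th (w j)), S.b (w 0)))) ≤
      MI (tup S.p S.L M) (fun w => S.L (w 0)) (fun w (j : Fin (M + 1)) => S.th (w j))
        (fun w => (g (fun j => S.th (w j)), S.b (w 0))) := by
    refine MI_data q0 ?_ ?_
    · intro w w' x x' e
      simp only [Prod.mk.injEq] at e
      exact h.Ln _ _ (h.same x 0).2.2.2.2 (h.same x' 0).2.2.2.2 e.1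
    · intro w w' x x' e
      simp only [Prod.mk.injEq] at e
      exact h.Lv _ _ (h.same x 0).2.2.2.2 (h.same x' 0).2.2.2.2 e.1
  have a2 : MI (tup S.p S.L M) (fun w => S.L (w 0)) (fun w (j : Fin (M + 1)) => S.th (w j))
        (fun w => (g (fun j => S.th (w j)), S.b (w 0))) ≤
      MI (tup S.p S.L M) (fun w => S.L (w 0)) (fun w (j : Fin (M + 1)) => S.th (w j))
        (fun w => S.b (w 0)) := by
    refine MI_cond_right q0 ?_
    intro w w' _ _ e
    simp only [Prod.mk.injEq] at e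
    show g (fun j => S.th (w j)) = g fun j => S.th (w' j)
    rw [e.1]
  exact a1.trans (a2.trans (h.all M))

/-- **More samples.** -/
theorem LB.Ok.FB_sub (h : S.Ok d) (X : ℕ) {N M : ℕ} (σ : Fin (N + 1) → Fin (M + 1))
    (hσ : Function.Injective σ) (A : (Fin (N + 1) → S.τ) → Matrix (Fin c) (Fin c) ℝ) :
    S.FB X M (fun t => A fun j => t (σ j)) ≤ S.FB X N A + (M + 1) * d := by
  have hp := h.law.nonneg
  have q0 := h.q0 M
  obtain ⟨Y, hY⟩ : ∃ Y : (Fin (M + 1) → S.Ω) → Fin (M + 1) → S.τ, Y = fun w j => S.th (w j) :=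
    ⟨_, rfl⟩
  obtain ⟨Z, hZ⟩ : ∃ Z : (Fin (M + 1) → S.Ω) → S.ν × ((Fin (N + 1) → S.τ) × S.β),
      Z = fun w => (S.v (w 0), ((fun j => S.th (w (σ j))), S.b (w 0))) := ⟨_, rfl⟩
  obtain ⟨A', hA'⟩ : ∃ A' : (Fin (M + 1) → S.Ω) → Matrix (Fin c) (Fin c) ℝ,
      A' = fun w => A fun j => S.th (w (σ j)) := ⟨_, rfl⟩
  have dA : Det (tup S.p S.L M) Z A' := by
    intro w w' _ _ e
    rw [hZ] at e
    simp only [Prod.mk.injEq] at e
    rw [hA']
    simp only [e.2.1]
  have a1 : S.FB X M (fun t => A fun j => t (σ j)) ≤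
      DF (tup S.p S.L M) (fun _ => Tx c X) A' (fun w => xv X (S.n (w 0)))
        (fun w => (Y w, Z w)) := by
    unfold LB.FB
    rw [← hA']
    refine DF_less q0 X ?_
    intro w w' _ _ e
    rw [hY, hZ] at e
    simp only [Prod.mk.injEq] at e
    simp only [LB.fl, Prod.mk.injEq]
    exact ⟨e.2.1, e.2.2.2, e.1⟩
  have a2 := DF_more q0 X (A := A') (n := fun w => S.n (w 0)) (Z := Z) Y dA
  have a3 : MI (tup S.p S.L M) (fun w => S.n (w 0)) Y Z ≤ (M + 1) * d := by
    have := h.mi_n (M := M) (fun t (j : Fin (N + 1)) => t (σ j))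
    rw [hY, hZ]
    exact this
  have hm : Im (tup S.p S.L M) (tup S.p S.L N) (fun w => w ∘ σ) :=
    im_of_marg (tup_sub hp S.L σ hσ)
  have a4 := DF_image hm X (fun w => A fun j => S.th (w j)) (fun w => S.n (w 0)) (S.fl N)
  have a5 : DF (tup S.p S.L M) (fun _ => Tx c X) A' (fun w => xv X (S.n (w 0))) Z =
      DF (tup S.p S.L M) (fun _ => Tx c X) (fun w => A fun j => S.th ((w ∘ σ) j))
        (fun w => xv X (S.n ((w ∘ σ) 0))) (fun w => S.fl N (w ∘ σ)) := by
    refine DF_cg q0 X (n := fun w => S.n (w 0)) (n' := fun w : Fin (M + 1) → S.Ω =>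
      S.n ((w ∘ σ) 0)) (fun w _ => by rw [hA']; rfl) ?_ ?_ ?_
    · intro w hw
      exact (h.same hw (σ 0)).2.2.2.1.symm
    · intro w w' x x' e
      rw [hZ] at e
      simp only [Prod.mk.injEq] at e
      have g1 := h.same x (σ 0)
      have g2 := h.same x' (σ 0)
      simp only [LB.fl, Function.comp_apply, Prod.mk.injEq]
      rw [g1.2.1, g1.2.2.1, g2.2.1, g2.2.2.1]
      exact ⟨e.1, e.2.2, e.2.1⟩
    · intro w w' x x' e
      simp only [LB.fl, Function.comp_apply, Prod.mk.injEq] at e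
      have g1 := h.same x (σ 0)
      have g2 := h.same x' (σ 0)
      rw [g1.2.1, g1.2.2.1, g2.2.1, g2.2.2.1] at e
      rw [hZ]
      simp only [Prod.mk.injEq]
      exact ⟨e.1, e.2.2, e.2.1⟩
  have a6 : S.FB X N A = DF (tup S.p S.L M) (fun _ => Tx c X) A' (fun w => xv X (S.n (w 0))) Z := by
    rw [a5, a4]
    rfl
  linarith

/-! ### Sums of bodies -/

/-- The sum of finitely many bodies. -/
noncomputable def sbf (X : ℕ) : (m : ℕ) → (Fin m → Matrix (Fin c) (Fin c) ℝ) →
    Matrix (Fin c) (Fin c) ℝ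
  | 0, _ => Tx c X
  | m + 1, A => sb X (A 0) (sbf X m fun i => A i.succ)

theorem Tx_inv (c X : ℕ) (i j : Fin c) : |(Tx c X)⁻¹ i j| ≤ 2 ^ X := by
  have hX : (0 : ℝ) < 2 ^ X := by positivity
  have e : (Tx c X)⁻¹ = Matrix.diagonal fun _ : Fin c => (2 : ℝ) ^ X := by
    refine Matrix.inv_eq_left_inv ?_
    unfold Tx
    rw [Matrix.diagonal_mul_diagonal, ← Matrix.diagonal_one]
    congr 1
    funext _
    field_simp
  rw [e]
  by_cases h : i = j
  · rw [h, Matrix.diagonal_apply_eq, abs_of_pos hX]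
  · rw [Matrix.diagonal_apply_ne _ h, abs_zero]
    positivity

theorem sbf_det (X m : ℕ) (A : Fin m → Matrix (Fin c) (Fin c) ℝ) : (sbf X m A).det ≠ 0 := by
  cases m with
  | zero => exact Tx_det c X
  | succ m => exact sb_det X _ _

theorem sbf_inv (X m : ℕ) (A : Fin m → Matrix (Fin c) (Fin c) ℝ) (i j : Fin c) :
    |(sbf X m A)⁻¹ i j| ≤ 2 ^ X := by
  cases m with
  | zero => exact Tx_inv c X i j
  | succ m => exact sb_inv X _ _ i j

/-- A vector of one of the bodies lies in the sum. -/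
theorem sbf_vec (X : ℕ) : ∀ (m : ℕ) (A : Fin m → Matrix (Fin c) (Fin c) ℝ),
    (∀ i, (A i).det ≠ 0) → ∀ (i : Fin m) {v : Fin c → ℝ} {K : ℝ}, 0 ≤ K →
    (∀ b, |((A i)⁻¹ *ᵥ v) b| ≤ K) → ∀ b, |((sbf X m A)⁻¹ *ᵥ v) b| ≤ ((c : ℝ) + 1) ^ m * K := by
  intro m
  induction m with
  | zero => exact fun _ _ i => i.elim0
  | succ m ih =>
    intro A hA i v K hK hv b
    have hc : (0 : ℝ) ≤ c := Nat.cast_nonneg c
    have h1 : (1 : ℝ) ≤ ((c : ℝ) + 1) ^ m := one_le_pow₀ (by linarith)
    rcases Fin.eq_zero_or_eq_succ i with rfl | ⟨i, rfl⟩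
    · have h2 := sb_vec X (A := A 0) (B := A 0) (E := sb X (A 0) (sbf X m fun i => A i.succ))
        (hA 0) (sb_col_left X (A 0) _) hv b
      refine h2.trans ?_
      rw [pow_succ]
      have h3 : (c : ℝ) * K ≤ 1 * ((c : ℝ) + 1) * K := by nlinarith
      refine h3.trans (mul_le_mul_of_nonneg_right (mul_le_mul_of_nonneg_right h1 (by linarith))
        hK)
    · have h2 := ih (fun i => A i.succ) (fun i => hA i.succ) i hK hv
      have h3 := sb_vec X (A := sbf X m fun i => A i.succ) (B := A 0)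
        (E := sb X (A 0) (sbf X m fun i => A i.succ)) (sbf_det X m _)
        (sb_col_right X (A 0) (sbf X m fun i => A i.succ)) h2 b
      refine h3.trans ?_
      rw [pow_succ]
      have h4 : 0 ≤ ((c : ℝ) + 1) ^ m * K := by positivity
      nlinarith

/-- Fullness in the sum. -/
theorem DF_sbf {Ω ζ : Type} [Fintype Ω] {p : Ω → ℝ} (hp : IsLaw p) {X : ℕ} {n : Ω → Fin c → ℤ}
    {Z : Ω → ζ} : ∀ (m : ℕ) (A : Fin m → Ω → Matrix (Fin c) (Fin c) ℝ),
    (∀ i, Det p Z (A i)) → (∀ i ω, (A i ω).det ≠ 0) → (∀ i ω a b, |(A i ω)⁻¹ a b| ≤ 2 ^ X) →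
    DF p (fun _ => Tx c X) (fun ω => sbf X m fun i => A i ω) (fun ω => xv X (n ω)) Z ≤
      ∑ i, DF p (fun _ => Tx c X) (A i) (fun ω => xv X (n ω)) Z + m * |Csb c| := by
  intro m
  induction m with
  | zero =>
    intro A _ _ _
    have hz : DF p (fun _ => Tx c X) (fun _ => Tx c X) (fun ω => xv X (n ω)) Z ≤ 0 := by
      rw [DF_xv]
      have e1 : Ex p (fun _ : Ω => lv (Tx c X) - lv (Tx c X)) = 0 := by
        rw [sub_self]
        unfold Ex
        simp
      have e2 := CH_nonneg hp.nonneg n (fun ω => (cl (Tx c X) (xv X (n ω)), Z ω))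
      linarith
    simpa [sbf] using hz
  | succ m ih =>
    intro A hd hdet hinv
    have h1 := ih (fun i => A i.succ) (fun i => hd i.succ) (fun i => hdet i.succ)
      (fun i => hinv i.succ)
    have dd : Det p Z (fun ω => sbf X m fun i => A i.succ ω) := by
      intro ω ω' a b e
      have : (fun i : Fin m => A i.succ ω) = fun i : Fin m => A i.succ ω' := by
        funext i
        exact hd i.succ ω ω' a b e
      show sbf X m (fun i => A i.succ ω) = sbf X m fun i => A i.succ ω'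
      rw [this]
    have h2 := DF_sb hp (X := X) (fun ω => xv X (n ω)) Z (hd 0) dd (hdet 0)
      (fun ω => sbf_det X m _) (hinv 0) (fun ω => sbf_inv X m _)
    have e : (fun ω => sbf X (m + 1) fun i => A i ω) =
        fun ω => sb X (A 0 ω) (sbf X m fun i => A i.succ ω) := rfl
    rw [e, Fin.sum_univ_succ]
    push_cast
    linarith [le_abs_self (Csb c)]

end Pool.TNE
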