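import Pool.Agent.H21.TNE.Call

/-!
# K_TIEN, the engine: the output of one call

`Pc.bd`: the explicit body of a picture with `r` references, a function of `2 + r + 1` times.
`Pc.out`: the target is full in this body, given the line and all times. `LB.Ok.pot_out`: the form
for K_POT: the height at one more time.
-/

set_option autoImplicit false
set_option linter.unusedSectionVars false
set_option linter.unusedVariables false

namespace Pool.TNE

open Finset Real Matrix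
open Pool.Agent.H49.Ent Pool.Agent.H32.Dense Pool.STK Pool.KS6 Pool.SLO Pool.QT64 Pool.POT
open Pool.FAD Pool.TQ64
open Pool.BFL (Pb)

variable {c : ℕ} {S : LB c} {r k : ℕ}

/-- The reference times. -/
def rfs {τ : Type} {r : ℕ} (t : Fin (2 + r + 1) → τ) (i : Fin r) : τ := t (Fin.natAdd 2 i).succ

/-- The three tuples of times. -/
def tri {τ : Type} {r : ℕ} (t : Fin (2 + r + 1) → τ) : Fin 3 → Fin (r + 1) → τ :=
  ![Fin.cons (t 0) (rfs t), Fin.cons (t (Fin.castAdd r (0 : Fin 2)).succ) (rfs t),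
    Fin.cons (t (Fin.castAdd r (1 : Fin 2)).succ) (rfs t)]

/-- **The explicit body of a picture.** -/
noncomputable def Pc.bd (P : Pc S r k) (r0 X : ℕ) (t : Fin (2 + r + 1) → S.τ) :
    Matrix (Fin c) (Fin c) ℝ :=
  bX r0 X P.tau P.E (tri t 0) (tri t 1) (tri t 2)

theorem Pc.bd_det (P : Pc S r k) (r0 X : ℕ) (t : Fin (2 + r + 1) → S.τ) :
    (P.bd r0 X t).det ≠ 0 := bX_det _ _ _ _ _ _ _

theorem Pc.bd_inv (P : Pc S r k) (r0 X : ℕ) (t : Fin (2 + r + 1) → S.τ) (i j : Fin c) :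
    |(P.bd r0 X t)⁻¹ i j| ≤ 2 ^ X := bX_inv _ _ _ _ _ _ _ i j

variable {P : Pc S r k} {X m r0 : ℕ} {C C' d d1 e D η R : ℝ}

/-- The lines of the picture. -/
theorem Pc.hK (hS : S.Ok d) (hP : P.Ok X C d1) (W W' : Fin (r + 1) → S.Ω)
    (x : 0 < tup S.p S.L r W) (x' : 0 < tup S.p S.L r W') :
    P.H.line W = P.H.line W' ↔ (S.L (W 0) = S.L (W' 0) ∧
      (fun i : Fin r => S.th (Fin.tail W i)) = fun i : Fin r => S.th (Fin.tail W' i)) := by
  have k1 := (hS.same x 0).2.2.2.2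
  have k2 := (hS.same x' 0).2.2.2.2
  have e1 : P.H.line W = (S.n (W 0), ((S.v (W 0), P.ctx W), P.ctx W)) := by
    show (S.n (ret (tup S.p S.L r) W 0), ((S.v (ret (tup S.p S.L r) W 0),
      P.ctx (ret (tup S.p S.L r) W)), P.ctx (ret (tup S.p S.L r) W))) = _
    rw [ret_eq x]
  have e2 : P.H.line W' = (S.n (W' 0), ((S.v (W' 0), P.ctx W'), P.ctx W')) := by
    show (S.n (ret (tup S.p S.L r) W' 0), ((S.v (ret (tup S.p S.L r) W' 0),
      P.ctx (ret (tup S.p S.L r) W')), P.ctx (ret (tup S.p S.L r) W'))) = _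
    rw [ret_eq x']
  rw [e1, e2]
  constructor
  · intro h
    have i1 := Prod.ext_iff.1 h
    have i2 := Prod.ext_iff.1 i1.2
    have i3 : P.ctx W = P.ctx W' := i2.2
    have h1 := P.hrf W
    rw [i3, P.hrf W'] at h1
    have h2 := Prod.ext_iff.1 h1
    refine ⟨hS.hL _ _ k1 k2 ?_, h2.2.symm⟩
    have h3 : S.b (W 0) = S.b (W' 0) := h2.1.symm
    exact Prod.ext i1.1 (Prod.ext (Prod.ext_iff.1 i2.1).1 h3)
  · rintro ⟨h1, h2⟩
    have g1 := hS.Ln _ _ k1 k2 h1
    have g2 := hS.Lv _ _ k1 k2 h1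
    have g3 := hS.Lb _ _ k1 k2 h1
    have g4 : P.ctx W = P.ctx W' := hP.ctx_m W W' x x' (Prod.ext g2 (Prod.ext g3 h2))
    rw [g1, g2, g4]

theorem nst_zero {Ω : Type} (N r : ℕ) (W : Fin (N + 1) → Fin (r + 1) → Ω) :
    nst N r W 0 = W 0 0 := by
  unfold nst
  rw [Fin.cons_zero]

theorem nst_left {Ω : Type} (N r : ℕ) (W : Fin (N + 1) → Fin (r + 1) → Ω) (j : Fin N) :
    nst N r W (Fin.castAdd r j).succ = W j.succ 0 := by
  unfold nst
  rw [Fin.cons_succ, Fin.append_left]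

theorem nst_right {Ω : Type} (N r : ℕ) (W : Fin (N + 1) → Fin (r + 1) → Ω) (i : Fin r) :
    nst N r W (Fin.natAdd N i).succ = W 0 i.succ := by
  unfold nst
  rw [Fin.cons_succ, Fin.append_right]

/-- **The output of one call.** -/
theorem Pc.out (hS : S.Ok d) (hP : P.Ok X C d1) (h : P.H.OkNS X C' e)
    (hD : DF (tup P.H.p P.H.line 3) (fun _ => Tx c X)
        (fun w => bX r0 X P.H.tau P.H.E (P.H.th (w 1)) (P.H.th (w 2)) (P.H.th (w 3)))
        (fun w => xv X (P.H.hgt (w 0)))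
        (fun w => (P.H.b (w 0), (P.H.th (w 0), (P.H.th (w 1),
          (P.H.th (w 2), P.H.th (w 3)))))) ≤ D) :
    S.FB X (2 + r) (P.bd r0 X) ≤ D + 4 * e + Ctr c 1 := by
  have hp := hS.law.nonneg
  have hp2 := h.law.nonneg
  have ql := hS.ql r
  have qq := hS.q0 r
  have q0 : ∀ W, 0 ≤ tup P.H.p P.H.line 2 W := fun W => tup_nonneg hp2 P.H.line 2 W
  have dd1 : Det P.H.p P.H.line P.H.b := by
    intro ω ω' _ _ e
    have e' : P.H.line ω = P.H.line ω' := e
    exact (Prod.ext_iff.1 (Prod.ext_iff.1 e').2).2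
  have dd2 : Det P.H.p P.H.line P.H.v := by
    intro ω ω' _ _ e
    have e' : P.H.line ω = P.H.line ω' := e
    exact (Prod.ext_iff.1 (Prod.ext_iff.1 e').2).1
  have dd3 : Det P.H.p P.H.line P.H.nu := by
    intro ω ω' _ _ e
    have e' : P.H.line ω = P.H.line ω' := e
    exact (Prod.ext_iff.1 e').1
  have hh : Det P.H.p (fun ω => (P.H.v ω, (P.H.b ω, P.H.th ω)))
      (fun ω => P.H.hgt ω - P.H.nu ω) := by
    intro ω ω' _ _ e
    have e1 := Prod.ext_iff.1 e
    have e2 := Prod.ext_iff.1 e1.2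
    have g1 : P.H.v ω = P.H.v ω' := e1.1
    have g2 : P.H.th ω = P.H.th ω' := e2.2
    have f : ∀ ω, P.H.hgt ω - P.H.nu ω = P.H.g (P.H.th ω) (P.H.v ω) := by
      intro ω
      unfold QH.hgt
      abel
    show P.H.hgt ω - P.H.nu ω = P.H.hgt ω' - P.H.nu ω'
    rw [f, f, g1, g2]
  have hmi : MI P.H.p P.H.th P.H.line P.H.b ≤ e := by
    unfold MI
    have e1 : CH P.H.p P.H.th (fun ω => (P.H.line ω, P.H.b ω)) = CH P.H.p P.H.th P.H.line := by
      refine CH_congr hp2 ?_ ?_ ?_ ?_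
      · intro ω ω' _ _ e
        exact (Prod.ext_iff.1 e).1
      · intro ω ω' _ _ e
        exact (Prod.ext_iff.1 e).1
      · intro ω ω' _ _ e
        exact (Prod.ext_iff.1 e).1
      · intro ω ω' x x' e
        exact Prod.ext e (dd1 ω ω' x x' e)
    rw [e1]
    exact h.h0
  have a2 := full_v h.law dd1 dd2 dd3 hh hmi h.h2 X
    (fun t1 t2 t3 => bX r0 X P.H.tau P.H.E t1 t2 t3) hD
  have a3 := full_nu h.law dd1 dd2 dd3 hh X
    (fun t1 t2 t3 => bX r0 X P.H.tau P.H.E t1 t2 t3) a2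
  refine le_trans (le_of_eq ?_) a3
  -- the support
  have hpos : ∀ W : Fin (2 + 1) → Fin (r + 1) → S.Ω, 0 < tup P.H.p P.H.line 2 W → (∀ j, 0 < tup S.p S.L r (W j)) ∧
      ∀ j, P.H.line (W j) = P.H.line (W 0) := fun W hW => (tup_pos_iff hp2 P.H.line 2 W).1 hW
  have hrs : ∀ W : Fin (2 + 1) → Fin (r + 1) → S.Ω, 0 < tup P.H.p P.H.line 2 W → ∀ j, P.ctx (W j) = P.ctx (W 0) ∧
      (fun i => S.th (W j i)) = Fin.cons (S.th (W j 0)) (fun i : Fin r => S.th (W 0 i.succ)) := by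
    intro W hW j
    obtain ⟨h1, h2⟩ := hpos W hW
    have h3 := (Pc.hK hS hP (W j) (W 0) (h1 j) (h1 0)).1 (h2 j)
    have h4 : P.H.b (W j) = P.H.b (W 0) :=
      (Prod.ext_iff.1 (Prod.ext_iff.1 (h2 j)).2).2
    have h5 : P.ctx (ret (tup S.p S.L r) (W j)) = P.ctx (ret (tup S.p S.L r) (W 0)) := h4
    rw [ret_eq (h1 j), ret_eq (h1 0)] at h5
    refine ⟨h5, ?_⟩
    funext i
    refine Fin.cases ?_ (fun i => ?_) i
    · rw [Fin.cons_zero]
    · rw [Fin.cons_succ]
      exact congrFun h3.2 i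
  have hm := im_nst (p := S.p) (L := S.L) (r := r) (K := P.H.line)
    (M := fun (u : Fin r → S.Ω) (i : Fin r) => S.th (u i)) hp
    (fun W W' x x' => Pc.hK hS hP W W' x x') 2
  have a4 := DF_image hm X (fun w => P.bd r0 X fun j => S.th (w j)) (fun w => S.n (w 0))
    (S.fl (2 + r))
  have a5 : S.FB X (2 + r) (P.bd r0 X) =
      DF (tup (tup S.p S.L r) P.H.line 2) (fun _ => Tx c X)
        (fun W => P.bd r0 X fun j => S.th (nst 2 r W j)) (fun W => xv X (S.n (nst 2 r W 0)))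
        (fun W => S.fl (2 + r) (nst 2 r W)) := a4.symm
  rw [a5]
  have hth : ∀ W : Fin (2 + 1) → Fin (r + 1) → S.Ω, 0 < tup P.H.p P.H.line 2 W → ∀ j, P.H.th (W j) = (S.th (W j 0), P.ctx (W j)) := by
    intro W hW j
    show (S.th (ret (tup S.p S.L r) (W j) 0), P.ctx (ret (tup S.p S.L r) (W j))) = _
    rw [ret_eq ((hpos W hW).1 j)]
  have hts : ∀ W : Fin (2 + 1) → Fin (r + 1) → S.Ω, 0 < tup P.H.p P.H.line 2 W → ∀ j, P.ts (P.H.th (W j)).1 (P.H.th (W j)).2 =
      tri (fun i => S.th (nst 2 r W i)) j := by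
    intro W hW j
    have e1 : P.ts (P.H.th (W j)).1 (P.H.th (W j)).2 = fun i => S.th (W j i) := by
      rw [hth W hW j]
      exact P.ts_ctx (W j)
    have e2 : rfs (fun i => S.th (nst 2 r W i)) = fun i : Fin r => S.th (W 0 i.succ) := by
      funext i
      show S.th (nst 2 r W (Fin.natAdd 2 i).succ) = S.th (W 0 i.succ)
      rw [nst_right]
    rw [e1, (hrs W hW j).2]
    fin_cases j
    · show _ = (Fin.cons (S.th (nst 2 r W 0)) (rfs fun i => S.th (nst 2 r W i)) :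
        Fin (r + 1) → S.τ)
      rw [e2, nst_zero]
      rfl
    · show _ = (Fin.cons (S.th (nst 2 r W (Fin.castAdd r (0 : Fin 2)).succ))
        (rfs fun i => S.th (nst 2 r W i)) : Fin (r + 1) → S.τ)
      rw [e2, nst_left]
      rfl
    · show _ = (Fin.cons (S.th (nst 2 r W (Fin.castAdd r (1 : Fin 2)).succ))
        (rfs fun i => S.th (nst 2 r W i)) : Fin (r + 1) → S.τ)
      rw [e2, nst_left]
      rfl
  refine DF_cg q0 X (n := fun W => S.n (nst 2 r W 0)) (n' := fun W => P.H.nu (W 0)) ?_ ?_ ?_ ?_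
  · rintro (W : Fin (2 + 1) → Fin (r + 1) → S.Ω) hW
    unfold Pc.bd
    refine bX_congr r0 X ?_ ?_ ?_ ?_ ?_ ?_
    · show P.tau (tri (fun i => S.th (nst 2 r W i)) 0) =
        P.tau (P.ts (P.H.th (W 0)).1 (P.H.th (W 0)).2)
      rw [hts W hW 0]
    · show P.tau (tri (fun i => S.th (nst 2 r W i)) 1) =
        P.tau (P.ts (P.H.th (W 1)).1 (P.H.th (W 1)).2)
      rw [hts W hW 1]
    · show P.tau (tri (fun i => S.th (nst 2 r W i)) 2) =
        P.tau (P.ts (P.H.th (W 2)).1 (P.H.th (W 2)).2)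
      rw [hts W hW 2]
    · show P.E (tri (fun i => S.th (nst 2 r W i)) 0) =
        P.E (P.ts (P.H.th (W 0)).1 (P.H.th (W 0)).2)
      rw [hts W hW 0]
    · show P.E (tri (fun i => S.th (nst 2 r W i)) 1) =
        P.E (P.ts (P.H.th (W 1)).1 (P.H.th (W 1)).2)
      rw [hts W hW 1]
    · show P.E (tri (fun i => S.th (nst 2 r W i)) 2) =
        P.E (P.ts (P.H.th (W 2)).1 (P.H.th (W 2)).2)
      rw [hts W hW 2]
  · rintro (W : Fin (2 + 1) → Fin (r + 1) → S.Ω) hW
    show S.n (nst 2 r W 0) = S.n (ret (tup S.p S.L r) (W 0) 0)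
    rw [nst_zero, ret_eq ((hpos W hW).1 0)]
  · rintro (W : Fin (2 + 1) → Fin (r + 1) → S.Ω) (W' : Fin (2 + 1) → Fin (r + 1) → S.Ω) x x' e
    have e1 := Prod.ext_iff.1 e
    have e2 := Prod.ext_iff.1 e1.2
    have g1 : S.v (W 0 0) = S.v (W' 0 0) := by
      have h1 : S.v (nst 2 r W 0) = S.v (nst 2 r W' 0) := e1.1
      rw [nst_zero, nst_zero] at h1
      exact h1
    have g2 : S.b (W 0 0) = S.b (W' 0 0) := by
      have h1 : S.b (nst 2 r W 0) = S.b (nst 2 r W' 0) := e2.1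
      rw [nst_zero, nst_zero] at h1
      exact h1
    have g3 : ∀ j, S.th (nst 2 r W j) = S.th (nst 2 r W' j) := fun j => congrFun e2.2 j
    have g4 : ∀ j : Fin 3, S.th (W j 0) = S.th (W' j 0) := by
      intro j
      fin_cases j
      · have := g3 0
        rw [nst_zero, nst_zero] at this
        exact this
      · have := g3 (Fin.castAdd r (0 : Fin 2)).succ
        rw [nst_left, nst_left] at this
        exact this
      · have := g3 (Fin.castAdd r (1 : Fin 2)).succ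
        rw [nst_left, nst_left] at this
        exact this
    have g5 : (fun i : Fin r => S.th (W 0 i.succ)) = fun i : Fin r => S.th (W' 0 i.succ) := by
      funext i
      have := g3 (Fin.natAdd 2 i).succ
      rw [nst_right, nst_right] at this
      exact this
    have g6 : P.ctx (W 0) = P.ctx (W' 0) :=
      hP.ctx_m _ _ ((hpos W x).1 0) ((hpos W' x').1 0) (by
        simp only [Prod.mk.injEq]
        exact ⟨g1, g2, g5⟩)
    have g7 : ∀ j, P.ctx (W j) = P.ctx (W' j) := fun j => by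
      rw [(hrs W x j).1, (hrs W' x' j).1, g6]
    have g8 : ∀ j : Fin 3, P.H.th (W j) = P.H.th (W' j) := fun j => by
      rw [hth W x j, hth W' x' j, g4 j, g7 j]
    have g9 : P.H.v (W 0) = P.H.v (W' 0) := by
      show (S.v (ret (tup S.p S.L r) (W 0) 0), P.ctx (ret (tup S.p S.L r) (W 0))) =
        (S.v (ret (tup S.p S.L r) (W' 0) 0), P.ctx (ret (tup S.p S.L r) (W' 0)))
      rw [ret_eq ((hpos W x).1 0), ret_eq ((hpos W' x').1 0), g1, g6]
    have g10 : P.H.b (W 0) = P.H.b (W' 0) := by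
      show P.ctx (ret (tup S.p S.L r) (W 0)) = P.ctx (ret (tup S.p S.L r) (W' 0))
      rw [ret_eq ((hpos W x).1 0), ret_eq ((hpos W' x').1 0), g6]
    show (P.H.v (W 0), (P.H.b (W 0), (P.H.th (W 0), (P.H.th (W 1), P.H.th (W 2))))) =
      (P.H.v (W' 0), (P.H.b (W' 0), (P.H.th (W' 0), (P.H.th (W' 1), P.H.th (W' 2)))))
    rw [g9, g10, g8 0, g8 1, g8 2]
  · rintro (W : Fin (2 + 1) → Fin (r + 1) → S.Ω) (W' : Fin (2 + 1) → Fin (r + 1) → S.Ω) x x' e
    have e1 := Prod.ext_iff.1 e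
    have e2 := Prod.ext_iff.1 e1.2
    have e3 := Prod.ext_iff.1 e2.2
    have e4 := Prod.ext_iff.1 e3.2
    have t0 : P.H.th (W 0) = P.H.th (W' 0) := e3.1
    have t1 : P.H.th (W 1) = P.H.th (W' 1) := e4.1
    have t2 : P.H.th (W 2) = P.H.th (W' 2) := e4.2
    have v0 : P.H.v (W 0) = P.H.v (W' 0) := e1.1
    rw [hth W x, hth W' x'] at t0 t1 t2
    have v1 : (S.v (ret (tup S.p S.L r) (W 0) 0), P.ctx (ret (tup S.p S.L r) (W 0))) =
        (S.v (ret (tup S.p S.L r) (W' 0) 0), P.ctx (ret (tup S.p S.L r) (W' 0))) := v0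
    rw [ret_eq ((hpos W x).1 0), ret_eq ((hpos W' x').1 0)] at v1
    have c0 : P.ctx (W 0) = P.ctx (W' 0) := (Prod.ext_iff.1 t0).2
    have h1 := P.hrf (W 0)
    rw [c0, P.hrf (W' 0)] at h1
    have h2 := Prod.ext_iff.1 h1
    have h3 : S.b (W 0 0) = S.b (W' 0 0) := h2.1.symm
    have h4 : ∀ i : Fin r, S.th (W 0 i.succ) = S.th (W' 0 i.succ) :=
      fun i => (congrFun h2.2 i).symm
    show (S.v (nst 2 r W 0), (S.b (nst 2 r W 0), fun j => S.th (nst 2 r W j))) =
      (S.v (nst 2 r W' 0), (S.b (nst 2 r W' 0), fun j => S.th (nst 2 r W' j)))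
    refine Prod.ext ?_ (Prod.ext ?_ ?_)
    · show S.v (nst 2 r W 0) = S.v (nst 2 r W' 0)
      rw [nst_zero, nst_zero]
      exact (Prod.ext_iff.1 v1).1
    · show S.b (nst 2 r W 0) = S.b (nst 2 r W' 0)
      rw [nst_zero, nst_zero]
      exact h3
    funext j
    show S.th (nst 2 r W j) = S.th (nst 2 r W' j)
    refine Fin.cases ?_ (fun j => ?_) j
    · rw [nst_zero, nst_zero]
      exact (Prod.ext_iff.1 t0).1
    · refine Fin.addCases (fun j => ?_) (fun i => ?_) j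
      · rw [nst_left, nst_left]
        fin_cases j
        · exact (Prod.ext_iff.1 t1).1
        · exact (Prod.ext_iff.1 t2).1
      · rw [nst_right, nst_right]
        exact h4 i

/-- **The form for K_POT**: the height at one more time, without the data of the line. -/
theorem LB.Ok.pot_out (hS : S.Ok d) {N : ℕ}
    (A : (Fin (N + 1) → S.τ) → Matrix (Fin c) (Fin c) ℝ) (hD : S.FB X N A ≤ D) :
    DF (tup S.p S.L (N + 1)) (fun _ => Tx c X) (fun w => A fun j => S.th (w j.succ))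
      (fun w => xv X (S.h (w 0)))
      (fun w => (S.b (w 0), (S.th (w 0), fun j : Fin (N + 1) => S.th (w j.succ)))) ≤
      D + (N + 2) * d + Ctr c 1 := by
  have hp := hS.law.nonneg
  have q0 := hS.q0 (N + 1)
  have ql := hS.ql (N + 1)
  have a1 := hS.FB_sub X (N := N) (M := N + 1) Fin.succ (Fin.succ_injective _) A
  have dA : Det (tup S.p S.L (N + 1)) (S.fl (N + 1)) (fun w => A fun j => S.th (w j.succ)) := by
    intro w w' _ _ e
    simp only [LB.fl, Prod.mk.injEq] at e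
    show A (fun j => S.th (w j.succ)) = A fun j => S.th (w' j.succ)
    congr 1
    funext j
    exact congrFun e.2.2 j.succ
  have a2 := DF_shift ql X (A := fun w => A fun j => S.th (w j.succ))
    (n := fun w => S.h (w 0)) (n' := fun w => S.n (w 0)) (Z := S.fl (N + 1)) dA (by
      intro w w' x x' h
      simp only [LB.fl, Prod.mk.injEq] at h
      have h2 : S.th (w 0) = S.th (w' 0) := congrFun h.2.2 0
      have h3 := hS.hh _ _ (hS.same x 0).2.2.2.2 (hS.same x' 0).2.2.2.2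
        (show (S.v (w 0), (S.b (w 0), S.th (w 0))) = (S.v (w' 0), (S.b (w' 0), S.th (w' 0))) by
          rw [h.1, h.2.1, h2])
      have h4 : S.h (w 0) - S.n (w 0) = S.h (w' 0) - S.n (w' 0) := h3
      show S.n (w 0) - S.h (w 0) = S.n (w' 0) - S.h (w' 0)
      rw [← neg_sub (S.h (w 0)), ← neg_sub (S.h (w' 0)), h4])
  have a3 : DF (tup S.p S.L (N + 1)) (fun _ => Tx c X) (fun w => A fun j => S.th (w j.succ))
      (fun w => xv X (S.n (w 0))) (S.fl (N + 1)) ≤ D + (N + 2) * d := by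
    have e : S.FB X (N + 1) (fun t => A fun j : Fin (N + 1) => t j.succ) =
        DF (tup S.p S.L (N + 1)) (fun _ => Tx c X) (fun w => A fun j => S.th (w j.succ))
      (fun w => xv X (S.n (w 0))) (S.fl (N + 1)) := rfl
    rw [← e]
    push_cast at a1
    linarith
  have a4 := DF_less q0 X (A := fun w => A fun j => S.th (w j.succ)) (n := fun w => S.h (w 0))
    (Z := fun w => (S.b (w 0), (S.th (w 0), fun j : Fin (N + 1) => S.th (w j.succ))))
    (Z' := S.fl (N + 1)) (by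
      intro w w' _ _ h
      simp only [LB.fl, Prod.mk.injEq] at h
      simp only [Prod.mk.injEq]
      refine ⟨h.2.1, congrFun h.2.2 0, ?_⟩
      funext j
      exact congrFun h.2.2 j.succ)
  linarith

end Pool.TNE
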