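import Pool.Agent.H21.TNE.Out

/-!
# K_TIEN, the engine: the staircase

Finitely many pictures; the error of the height of each picture is a combination of three-point
vectors of the pictures before, up to a bounded error. Then the target is full in all explicit bodies.
-/

set_option autoImplicit false
set_option linter.unusedSectionVars false
set_option linter.unusedVariables false

namespace Pool.TNE

open Finset Real Matrix
open Pool.Agent.H49.Ent Pool.Agent.H32.Dense Pool.STK Pool.KS6 Pool.SLO Pool.QT64 Pool.POT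
open Pool.FAD Pool.TQ64
open Pool.BFL (Pb)

/-- The shape of the calls: `r j` references and `k j` columns of the call `j`; `u j` bodies of the
calls before, at the samples `σ`. -/
structure Shp where
  r : ℕ → ℕ
  k : ℕ → ℕ
  u : ℕ → ℕ
  tg : ∀ j, Fin (u j) → ℕ
  tg_lt : ∀ j e, tg j e < j
  σ : ∀ (j : ℕ) (e : Fin (u j)), Fin (2 + r (tg j e) + 1) → Fin (r j + 1)
  inj : ∀ j e, Function.Injective (σ j e)

variable {c : ℕ} {Q : Shp} {S : LB c} {X r0 : ℕ} {C C' d d1 e D η R : ℝ}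

/-- The error of the height: three-point vectors of the calls before. -/
def Err (Q : Shp) (P : ∀ j, Pc S (Q.r j) (Q.k j)) (X : ℕ) (j : ℕ) (C : ℝ)
    (F : (Fin (Q.r j + 1) → S.Ω) → Prop) : Prop :=
  ∀ w, 0 < tup S.p S.L (Q.r j) w → ¬ F w →
    ∃ a : ∀ e : Fin (Q.u j), Fin (Q.k (Q.tg j e)) → ℝ, (∀ e v, |a e v| ≤ C) ∧
      ∀ i, |((P j).hg w i : ℝ) - S.h (w 0) i - 2 ^ X * ∑ e, ∑ v, a e v *
        d3 (P (Q.tg j e)).tau (P (Q.tg j e)).E v (tri (fun x => S.th (w (Q.σ j e x))) 0)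
          (tri (fun x => S.th (w (Q.σ j e x))) 1) (tri (fun x => S.th (w (Q.σ j e x))) 2) i| ≤ C

theorem tri_map {Ω τ : Type} {r : ℕ} (f : Ω → τ) (w : Fin (2 + r + 1) → Ω) (j : Fin 3) :
    tri (fun x => f (w x)) j = fun x => f (tri w j x) := by
  fin_cases j <;>
  · funext x
    refine Fin.cases rfl (fun i => rfl) x

/-- The three tuples lie in the support. -/
theorem tri_pos {Ω Λ : Type} [Fintype Ω] {p : Ω → ℝ} (hp : ∀ ω, 0 ≤ p ω) {L : Ω → Λ} {r : ℕ}
    {w : Fin (2 + r + 1) → Ω} (hw : 0 < tup p L (2 + r) w) (j : Fin 3) :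
    0 < tup p L r (tri w j) := by
  obtain ⟨h1, h2⟩ := (tup_pos_iff hp L (2 + r) w).1 hw
  refine (tup_pos_iff hp L r _).2 ?_
  have key : ∀ (x : Fin (2 + r + 1)), (∀ i, 0 < p ((Fin.cons (w x) (rfs w) : Fin (r + 1) → Ω) i)) ∧
      ∀ i, L ((Fin.cons (w x) (rfs w) : Fin (r + 1) → Ω) i) =
        L ((Fin.cons (w x) (rfs w) : Fin (r + 1) → Ω) 0) := by
    intro x
    refine ⟨fun i => Fin.cases (h1 x) (fun i => h1 _) i, fun i => Fin.cases rfl (fun i => ?_) i⟩
    show L (w _) = L (w x)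
    rw [h2, h2 x]
  fin_cases j
  · exact key 0
  · exact key (Fin.castAdd r (0 : Fin 2)).succ
  · exact key (Fin.castAdd r (1 : Fin 2)).succ

/-- The radius. -/
noncomputable def Rr (c : ℕ) (Q : Shp) (r0 : ℕ → ℕ) (j : ℕ) (C : ℝ) : ℝ :=
  c * C + ∑ e, ((c : ℝ) + 1) ^ Q.u j * (Q.k (Q.tg j e) * (C * KX c (r0 (Q.tg j e))))

theorem Rr_nn (c : ℕ) (Q : Shp) (r0 : ℕ → ℕ) (j : ℕ) {C : ℝ} (hC : 0 ≤ C) :
    0 ≤ Rr c Q r0 j C := by
  unfold Rr
  have h1 : ∀ e ∈ (Finset.univ : Finset (Fin (Q.u j))),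
      0 ≤ ((c : ℝ) + 1) ^ Q.u j * (Q.k (Q.tg j e) * (C * KX c (r0 (Q.tg j e)))) := by
    intro e _
    have := KX_one c (r0 (Q.tg j e))
    positivity
  have h2 := Finset.sum_nonneg h1
  positivity

/-- The bodies of the call `j`. -/
noncomputable def bds (Q : Shp) (P : ∀ j, Pc S (Q.r j) (Q.k j)) (r0 : ℕ → ℕ) (X j : ℕ)
    (e : Fin (Q.u j)) (t : Fin (Q.r j + 1) → S.τ) : Matrix (Fin c) (Fin c) ℝ :=
  (P (Q.tg j e)).bd (r0 (Q.tg j e)) X fun x => t (Q.σ j e x)

/-- **The error lies in the sum of the bodies.** -/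
theorem err_bd (hS : S.Ok d) (P : ∀ j, Pc S (Q.r j) (Q.k j)) {Cs : ℕ → ℝ} {r0 : ℕ → ℕ} {j : ℕ}
    (hP : ∀ i < j, (P i).Ok X (Cs i) d1) (hr : ∀ i < j, Cs i ≤ 2 ^ r0 i) (hC : 0 ≤ C)
    {F : (Fin (Q.r j + 1) → S.Ω) → Prop} (hE : Err Q P X j C F) :
    ∀ w, 0 < tup S.p S.L (Q.r j) w → ¬ F w → ∀ i,
      |((sbf X (Q.u j) fun e => bds Q P r0 X j e fun x => S.th (w x))⁻¹ *ᵥ
        (xv X ((P j).hg w) - xv X (S.h (w 0)))) i| ≤ Rr c Q r0 j C := by
  intro w hw hF i
  have hp := hS.law.nonneg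
  have hX : (0 : ℝ) < 2 ^ X := by positivity
  obtain ⟨a, ha, hh⟩ := hE w hw hF
  obtain ⟨B, hB⟩ : ∃ B : Fin (Q.u j) → Matrix (Fin c) (Fin c) ℝ,
      B = fun e => bds Q P r0 X j e fun x => S.th (w x) := ⟨_, rfl⟩
  rw [← hB]
  obtain ⟨V, hV⟩ : ∃ V : ∀ e : Fin (Q.u j), Fin (Q.k (Q.tg j e)) → Fin c → ℝ,
      V = fun e v => d3 (P (Q.tg j e)).tau (P (Q.tg j e)).E v
          (tri (fun x => S.th (w (Q.σ j e x))) 0)
          (tri (fun x => S.th (w (Q.σ j e x))) 1) (tri (fun x => S.th (w (Q.σ j e x))) 2) :=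
    ⟨_, rfl⟩
  have hh' : ∀ i, |((P j).hg w i : ℝ) - S.h (w 0) i - 2 ^ X * ∑ e, ∑ v, a e v * V e v i| ≤ C := by
    intro i
    rw [hV]
    exact hh i
  have hBdet : ∀ e, (B e).det ≠ 0 := by
    intro e
    rw [hB]
    exact Pc.bd_det _ _ _ _
  -- the vectors
  have hVb : ∀ e v b, |((B e)⁻¹ *ᵥ V e v) b| ≤ KX c (r0 (Q.tg j e)) := by
    intro e v b
    have hlt := Q.tg_lt j e
    have hw' : 0 < tup S.p S.L (2 + Q.r (Q.tg j e)) (fun x => w (Q.σ j e x)) := by
      obtain ⟨h1, h2⟩ := (tup_pos_iff hp S.L (Q.r j) w).1 hw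
      refine (tup_pos_iff hp S.L _ _).2 ⟨fun x => h1 _, fun x => ?_⟩
      show S.L (w _) = S.L (w _)
      rw [h2, h2 (Q.σ j e 0)]
    have hEb : ∀ x : Fin 3, ∀ u i, |(P (Q.tg j e)).E (tri (fun x => S.th (w (Q.σ j e x))) x) u i| ≤
        Cs (Q.tg j e) := by
      intro x u i
      have e1 := tri_map S.th (fun x => w (Q.σ j e x)) x
      rw [e1]
      exact (hP _ hlt).E_b _ (tri_pos hp hw' x) u i
    rw [hB, hV]
    exact bX_d3 X (P (Q.tg j e)).tau (P (Q.tg j e)).E (hr _ hlt) (hEb 0) (hEb 1) (hEb 2) v b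
  obtain ⟨δ, hδ⟩ : ∃ δ : Fin c → ℝ, δ = fun i =>
      ((P j).hg w i : ℝ) - S.h (w 0) i - 2 ^ X * ∑ e, ∑ v, a e v * V e v i := ⟨_, rfl⟩
  have e0 : xv X ((P j).hg w) - xv X (S.h (w 0)) = ((2 : ℝ) ^ X)⁻¹ • δ +
      ∑ e, ∑ v, a e v • V e v := by
    funext i
    simp only [Pi.sub_apply, Pi.add_apply, Pi.smul_apply, smul_eq_mul, xv, hδ,
      Finset.sum_apply]
    field_simp
    ring
  rw [e0, Matrix.mulVec_add, Pi.add_apply]
  unfold Rr
  refine (abs_add_le _ _).trans (add_le_add ?_ ?_)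
  · rw [Matrix.mulVec_smul, Pi.smul_apply, smul_eq_mul, abs_mul, abs_of_pos (inv_pos.2 hX)]
    have h3 := mulVec_bd (A := (sbf X (Q.u j) B)⁻¹) (v := δ) (a := 2 ^ X) (b := C)
      (fun i j => sbf_inv X _ _ i j) (fun i => by
        rw [hδ]
        exact hh' i) hX.le i
    calc _ ≤ ((2 : ℝ) ^ X)⁻¹ * (c * (2 ^ X * C)) :=
          mul_le_mul_of_nonneg_left h3 (by positivity)
      _ = _ := by field_simp
  · rw [Matrix.mulVec_sum, Finset.sum_apply]
    refine (Finset.abs_sum_le_sum_abs _ _).trans (Finset.sum_le_sum fun e _ => ?_)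
    rw [Matrix.mulVec_sum, Finset.sum_apply]
    refine (Finset.abs_sum_le_sum_abs _ _).trans ?_
    have hK := KX_one c (r0 (Q.tg j e))
    have h4 : ∀ v ∈ (Finset.univ : Finset (Fin (Q.k (Q.tg j e)))),
        |((sbf X (Q.u j) B)⁻¹ *ᵥ (a e v • V e v)) i| ≤
          C * (((c : ℝ) + 1) ^ Q.u j * KX c (r0 (Q.tg j e))) := by
      intro v _
      rw [Matrix.mulVec_smul, Pi.smul_apply, smul_eq_mul, abs_mul]
      exact mul_le_mul (ha e v) (sbf_vec X (Q.u j) B hBdet e (by linarith) (hVb e v) i)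
        (abs_nonneg _) hC
    refine (Finset.sum_le_card_nsmul _ _ _ h4).trans (le_of_eq ?_)
    rw [Finset.card_univ, Fintype.card_fin, nsmul_eq_mul]
    ring

/-- **The staircase.** -/
theorem stair (c : ℕ) (Q : Shp) : ∀ (J : ℕ) (ε : ℝ), 0 < ε → ∃ io ηT : ℝ, 0 < io ∧ 0 < ηT ∧
    ∀ C : ℕ → ℝ, (∀ j, 1 ≤ C j) → ∃ (r0 : ℕ → ℕ) (X0 : ℕ), (∀ j < J, C j ≤ 2 ^ r0 j) ∧
    ∀ (S : LB (c + 1)) (X : ℕ), X0 ≤ X → S.Ok (io * X) →
    ∀ P : ∀ j, Pc S (Q.r j) (Q.k j), (∀ j < J, (P j).Ok X (C j) (io * X)) →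
    (∀ j < J, ∃ F, Pb (tup S.p S.L (Q.r j)) F ≤ ηT ∧ Err Q P X j (C j) F) →
    ∀ j < J, S.FB X (2 + Q.r j) ((P j).bd (r0 j) X) ≤ ε * X := by
  intro J
  induction J with
  | zero =>
    intro ε _
    exact ⟨1, 1, one_pos, one_pos, fun C _ => ⟨fun _ => 0, 0, fun j hj => absurd hj (by omega),
      fun S X _ _ P _ _ j hj => absurd hj (by omega)⟩⟩
  | succ J ih =>
    intro ε hε
    obtain ⟨ioJ, hioJ, hB⟩ := body_e c (Q.k J) (ε / 2) (by positivity)
    obtain ⟨eJ, heJ⟩ : ∃ eJ : ℝ, eJ = min ioJ (ε / 16) := ⟨_, rfl⟩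
    have heJ0 : 0 < eJ := by rw [heJ]; exact lt_min hioJ (by positivity)
    have heJa : eJ ≤ ioJ := by rw [heJ]; exact min_le_left _ _
    have heJb : eJ ≤ ε / 16 := by rw [heJ]; exact min_le_right _ _
    obtain ⟨u, hu⟩ : ∃ u : ℕ, u = Q.u J := ⟨_, rfl⟩
    obtain ⟨r, hr⟩ : ∃ r : ℕ, r = Q.r J := ⟨_, rfl⟩
    have hu0 : (0 : ℝ) ≤ u := Nat.cast_nonneg u
    have hr0' : (0 : ℝ) ≤ r := Nat.cast_nonneg r
    have hc0 : (0 : ℝ) ≤ c := Nat.cast_nonneg c
    obtain ⟨ε', hε'⟩ : ∃ ε' : ℝ, ε' = min ε (eJ / (8 * (u + 1))) := ⟨_, rfl⟩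
    have hε'0 : 0 < ε' := by rw [hε']; exact lt_min hε (by positivity)
    have hε'a : ε' ≤ ε := by rw [hε']; exact min_le_left _ _
    have hε'b : (u + 1) * ε' ≤ eJ / 8 := by
      have h1 : ε' ≤ eJ / (8 * (u + 1)) := by rw [hε']; exact min_le_right _ _
      calc ((u : ℝ) + 1) * ε' ≤ (u + 1) * (eJ / (8 * (u + 1))) :=
            mul_le_mul_of_nonneg_left h1 (by linarith)
        _ = eJ / 8 := by field_simp
    obtain ⟨io', η', hio'0, hη'0, hI⟩ := ih ε' hε'0
    obtain ⟨io, hio⟩ : ∃ io : ℝ, io = min io' (eJ / (8 * ((r + 2) * (u + 1)))) := ⟨_, rfl⟩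
    have hio0 : 0 < io := by rw [hio]; exact lt_min hio'0 (by positivity)
    have hioa : io ≤ io' := by rw [hio]; exact min_le_left _ _
    have hiob : (r + 2) * (u + 1) * io ≤ eJ / 8 := by
      have h1 : io ≤ eJ / (8 * ((r + 2) * (u + 1))) := by rw [hio]; exact min_le_right _ _
      calc ((r : ℝ) + 2) * (u + 1) * io ≤ (r + 2) * (u + 1) * (eJ / (8 * ((r + 2) * (u + 1)))) :=
            mul_le_mul_of_nonneg_left h1 (by positivity)
        _ = eJ / 8 := by field_simp
    obtain ⟨η, hη⟩ : ∃ η : ℝ, η = min η' (min 1 (eJ / (8 * (c + 1)))) := ⟨_, rfl⟩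
    have hη0 : 0 < η := by rw [hη]; exact lt_min hη'0 (lt_min one_pos (by positivity))
    have hηa : η ≤ η' := by rw [hη]; exact min_le_left _ _
    have hη1 : η ≤ 1 := by rw [hη]; exact (min_le_right _ _).trans (min_le_left _ _)
    have hηb : (c + 1) * η ≤ eJ / 8 := by
      have h1 : η ≤ eJ / (8 * (c + 1)) := by
        rw [hη]
        exact (min_le_right _ _).trans (min_le_right _ _)
      calc ((c : ℝ) + 1) * η ≤ (c + 1) * (eJ / (8 * (c + 1))) :=
            mul_le_mul_of_nonneg_left h1 (by linarith)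
        _ = eJ / 8 := by field_simp
    refine ⟨io, η, hio0, hη0, fun C hC => ?_⟩
    obtain ⟨r0', X1, hr0a, hI⟩ := hI C hC
    obtain ⟨rJ, X2, hrJ, hB⟩ := hB (C J) (hC J)
    obtain ⟨R, hR⟩ : ∃ R : ℝ, R = Rr (c + 1) Q r0' J (C J) := ⟨_, rfl⟩
    have hR0 : 0 ≤ R := by
      rw [hR]
      exact Rr_nn _ _ _ _ (by linarith [hC J])
    obtain ⟨K, hK⟩ : ∃ K : ℝ, K = Kp (c + 1) u R (C J) := ⟨_, rfl⟩
    have hK0 : 0 ≤ K := by
      rw [hK]
      exact Kp_nn _ _ hR0 (hC J)
    obtain ⟨X3, hX3⟩ := exists_nat_ge (K / (eJ / 8))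
    obtain ⟨X4, hX4⟩ := exists_nat_ge (Ctr (c + 1) 1 / (ε / 4))
    refine ⟨Function.update r0' J rJ, max (max X1 X2) (max X3 X4), ?_, ?_⟩
    · intro j hj
      by_cases h : j = J
      · rw [h, Function.update_self]
        exact hrJ
      · rw [Function.update_of_ne h]
        exact hr0a j (by omega)
    · intro S X hX hS P hP hE
      have hX1 : X1 ≤ X := (le_max_left _ _).trans ((le_max_left _ _).trans hX)
      have hX2 : X2 ≤ X := (le_max_right _ _).trans ((le_max_left _ _).trans hX)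
      have hX3' : (X3 : ℝ) ≤ X := by
        exact_mod_cast (le_max_left _ _).trans ((le_max_right _ _).trans hX)
      have hX4' : (X4 : ℝ) ≤ X := by
        exact_mod_cast (le_max_right _ _).trans ((le_max_right _ _).trans hX)
      have hX0 : (0 : ℝ) ≤ X := Nat.cast_nonneg X
      have hKX : K ≤ eJ / 8 * X := by
        have := hX3.trans hX3'
        rw [div_le_iff₀ (by positivity)] at this
        linarith
      have hCX : Ctr (c + 1) 1 ≤ ε / 4 * X := by
        have := hX4.trans hX4'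
        rw [div_le_iff₀ (by positivity)] at this
        linarith
      have hle : io * X ≤ io' * X := mul_le_mul_of_nonneg_right hioa hX0
      have hS' : S.Ok (io' * X) :=
        { law := hS.law
          Lb := hS.Lb
          Lv := hS.Lv
          Ln := hS.Ln
          hL := hS.hL
          hh := hS.hh
          h0 := hS.h0.trans hle
          h2 := hS.h2.trans hle }
      have hP' : ∀ j < J, (P j).Ok X (C j) (io' * X) := by
        intro j hj
        have h := hP j (by omega)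
        exact
          { ctx_m := h.ctx_m
            tau_r := h.tau_r
            y_r := h.y_r
            E_b := h.E_b
            be_b := h.be_b
            hgt_b := h.hgt_b
            y_f := by linarith [h.y_f]
            t_f := by linarith [h.t_f] }
      have low : ∀ j < J, S.FB X (2 + Q.r j) ((P j).bd (r0' j) X) ≤ ε' * X :=
        hI S X hX1 hS' P hP' fun j hj => by
          obtain ⟨F, hF, hE'⟩ := hE j (by omega)
          exact ⟨F, hF.trans hηa, hE'⟩
      intro j hj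
      by_cases h : j = J
      · subst h
        rw [Function.update_self]
        obtain ⟨F, hF, hE'⟩ := hE j (by omega)
        have hPj := hP j (by omega)
        obtain ⟨D, hD⟩ : ∃ D : ℝ, D = ε' * X + (Q.r j + 1) * (io * X) := ⟨_, rfl⟩
        have hD0 : 0 ≤ D := by rw [hD]; positivity
        have hioX : 0 ≤ io * X := by positivity
        have hFB : ∀ e, S.FB X (Q.r j) (bds Q P r0' X j e) ≤ D := by
          intro e
          have h1 := hS.FB_sub X (Q.σ j e) (Q.inj j e)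
            ((P (Q.tg j e)).bd (r0' (Q.tg j e)) X)
          have h2 := low (Q.tg j e) (Q.tg_lt j e)
          have h3 : S.FB X (Q.r j) (bds Q P r0' X j e) =
            S.FB X (Q.r j) (fun t => (P (Q.tg j e)).bd (r0' (Q.tg j e)) X
              fun x => t (Q.σ j e x)) := rfl
          rw [h3, hD]
          linarith
        have hok := Pc.okns hS hPj (hC j) hioX hioX hD0 (bds Q P r0' X j)
          (fun e t => Pc.bd_det _ _ _ _) (fun e t a b => Pc.bd_inv _ _ _ _ a b) hFB hR0 F hF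
          hη0.le hη1 (by
            rw [hR]
            exact err_bd hS P (fun i hi => hP i (by omega)) hr0a (by linarith [hC j]) hE')
        have hl2 : 0 < Real.log 2 := Real.log_pos (by norm_num)
        have hl2' : Real.log 2 ≤ 1 := by
          have := Real.log_le_sub_one_of_pos (show (0 : ℝ) < 2 by norm_num)
          linarith
        have hpr : pr (c + 1) (Q.r j) (Q.u j) R (C j) (io * X) (io * X) D η X ≤ eJ * X := by
          unfold pr
          rw [← hr, ← hu, ← hK, hD, ← hr]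
          have g1 : ((c + 1 : ℕ) : ℝ) * (η * (X * Real.log 2)) ≤ eJ / 8 * X := by
            have e1 : ((c + 1 : ℕ) : ℝ) * (η * (X * Real.log 2)) =
                ((c + 1 : ℝ) * η) * (X * Real.log 2) := by
              push_cast
              ring
            rw [e1]
            refine mul_le_mul hηb ?_ (by positivity) (by positivity)
            calc _ ≤ (X : ℝ) * 1 := mul_le_mul_of_nonneg_left hl2' hX0
              _ = _ := mul_one _
          have g2 := mul_le_mul_of_nonneg_right hε'b hX0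
          have g3 := mul_le_mul_of_nonneg_right hiob hX0
          have g4 : 0 ≤ ε' * X := by positivity
          have g5 : io * X + (r + 1) * (io * X) + u * (ε' * X + (r + 1) * (io * X)) ≤
              (u + 1) * ε' * X + (r + 2) * (u + 1) * io * X := by
            nlinarith [mul_nonneg hu0 hioX]
          linarith
        have hok' : (P j).H.OkNS X (C j) (eJ * X) := okns_mono hok hpr
        have hok2 := okns_mono hok' (mul_le_mul_of_nonneg_right heJa hX0)
        have h5 := hB (P j).H X hX2 hok2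
        have h6 := Pc.out hS hPj hok' h5
        have h7 := mul_le_mul_of_nonneg_right heJb hX0
        linarith
      · rw [Function.update_of_ne h]
        exact (low j (by omega)).trans (mul_le_mul_of_nonneg_right hε'a hX0)

end Pool.TNE
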